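import Pool.Agent.Work.MP_52e894_pr.Determ

/-!
# Brownian paths are almost surely good
-/

open MeasureTheory ProbabilityTheory Filter TopologicalSpace Set
open scoped NNReal ENNReal Topology

namespace Span52e894

/-- a countable dense set of times -/
noncomputable def DD : Set ℝ≥0 := Classical.choose (TopologicalSpace.exists_countable_dense ℝ≥0)

theorem DD_countable : DD.Countable :=
  (Classical.choose_spec (TopologicalSpace.exists_countable_dense ℝ≥0)).1

theorem DD_dense : Dense DD :=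
  (Classical.choose_spec (TopologicalSpace.exists_countable_dense ℝ≥0)).2

/-- the countable dense subset of the interval `(a, b)` -/
noncomputable def JJ (a b : ℝ≥0) : Set ℝ≥0 := Set.Ioo a b ∩ DD

instance (a b : ℝ≥0) : Countable (JJ a b) :=
  (DD_countable.mono Set.inter_subset_right).to_subtype

theorem subset_closure_JJ {a b : ℝ≥0} (hab : a < b) : Set.Icc a b ⊆ closure (JJ a b) := by
  have h1 : Set.Ioo a b ⊆ closure (JJ a b) := DD_dense.open_subset_closure_inter isOpen_Ioo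
  have h2 : closure (Set.Ioo a b) ⊆ closure (JJ a b) := closure_minimal h1 isClosed_closure
  rwa [closure_Ioo hab.ne] at h2

theorem JJ_nonempty {a b : ℝ≥0} (hab : a < b) : Nonempty (JJ a b) := by
  have h1 : (closure (JJ a b)).Nonempty := ⟨a, subset_closure_JJ hab ⟨le_rfl, hab.le⟩⟩
  exact (closure_nonempty_iff.1 h1).to_subtype

/-- infimum of the path over `(a,b)` relative to the value at `b` -/
noncomputable def lo (a b : ℝ≥0) (f : ℝ≥0 → ℝ) : ℝ := ⨅ s : JJ a b, (f s - f b)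

/-- supremum of the path over `(c,d)` relative to the value at `c` -/
noncomputable def hi (c d : ℝ≥0) (f : ℝ≥0 → ℝ) : ℝ := ⨆ t : JJ c d, (f t - f c)

theorem lo_eq {a b : ℝ≥0} (hab : a < b) {f : ℝ≥0 → ℝ} (hf : Continuous f) {s0 : ℝ≥0}
    (hs0 : s0 ∈ Set.Icc a b) (hmin : ∀ s ∈ Set.Icc a b, f s0 ≤ f s) :
    lo a b f = f s0 - f b := by
  have := JJ_nonempty hab
  have hsub : ∀ s : JJ a b, (s : ℝ≥0) ∈ Set.Icc a b := fun s => ⟨s.2.1.1.le, s.2.1.2.le⟩
  have hbdd : BddBelow (Set.range (fun s : JJ a b => f s - f b)) := by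
    refine ⟨f s0 - f b, ?_⟩
    rintro _ ⟨s, rfl⟩
    have := hmin s (hsub s)
    simp only
    linarith
  refine le_antisymm ?_ ?_
  · have hcl : IsClosed {s : ℝ≥0 | lo a b f ≤ f s - f b} :=
      isClosed_le continuous_const (by fun_prop)
    have hsubset : JJ a b ⊆ {s : ℝ≥0 | lo a b f ≤ f s - f b} := by
      intro s hs
      exact ciInf_le hbdd (⟨s, hs⟩ : JJ a b)
    exact closure_minimal hsubset hcl (subset_closure_JJ hab hs0)
  · refine le_ciInf (fun s => ?_)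
    have := hmin s (hsub s)
    linarith

theorem hi_eq {c d : ℝ≥0} (hcd : c < d) {f : ℝ≥0 → ℝ} (hf : Continuous f) {t0 : ℝ≥0}
    (ht0 : t0 ∈ Set.Icc c d) (hmax : ∀ t ∈ Set.Icc c d, f t ≤ f t0) :
    hi c d f = f t0 - f c := by
  have := JJ_nonempty hcd
  have hsub : ∀ s : JJ c d, (s : ℝ≥0) ∈ Set.Icc c d := fun s => ⟨s.2.1.1.le, s.2.1.2.le⟩
  have hbdd : BddAbove (Set.range (fun s : JJ c d => f s - f c)) := by
    refine ⟨f t0 - f c, ?_⟩
    rintro _ ⟨s, rfl⟩
    have := hmax s (hsub s)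
    simp only
    linarith
  refine le_antisymm ?_ ?_
  · refine ciSup_le (fun s => ?_)
    have := hmax s (hsub s)
    linarith
  · have hcl : IsClosed {s : ℝ≥0 | f s - f c ≤ hi c d f} :=
      isClosed_le (by fun_prop) continuous_const
    have hsubset : JJ c d ⊆ {s : ℝ≥0 | f s - f c ≤ hi c d f} := by
      intro s hs
      exact le_ciSup hbdd (⟨s, hs⟩ : JJ c d)
    exact closure_minimal hsubset hcl (subset_closure_JJ hcd ht0)

/-- the bad event: the supremum over `[c,d]` equals the infimum over `[a,b]` -/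
def Bad (a b c d : ℝ≥0) (f : ℝ≥0 → ℝ) : Prop := lo a b f - hi c d f = f c - f b

theorem bad_of {a b c d : ℝ≥0} (hab : a < b) (hcd : c < d) {f : ℝ≥0 → ℝ}
    (hf : Continuous f) {s0 t0 : ℝ≥0} (hs0 : s0 ∈ Set.Icc a b) (ht0 : t0 ∈ Set.Icc c d)
    (heq : f s0 = f t0) (hle : ∀ s ∈ Set.Icc a b, ∀ t ∈ Set.Icc c d, f t ≤ f s) :
    Bad a b c d f := by
  unfold Bad
  rw [lo_eq hab hf hs0 (fun s hs => by rw [heq]; exact hle s hs t0 ht0),
    hi_eq hcd hf ht0 (fun t ht => by rw [← heq]; exact hle s0 hs0 t ht), heq]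
  ring

variable {Ω : Type*} [MeasurableSpace Ω] {P : Measure Ω} {B : ℝ≥0 → Ω → ℝ}

theorem prod_null {μ ν ρ : Measure ℝ} [SFinite μ] [SFinite ν] [SFinite ρ]
    (hμ : ∀ x, μ {x} = 0) :
    ((μ.prod ν).prod ρ) {p : (ℝ × ℝ) × ℝ | p.1.2 - p.2 = p.1.1} = 0 := by
  have hE : MeasurableSet {p : (ℝ × ℝ) × ℝ | p.1.2 - p.2 = p.1.1} :=
    measurableSet_eq_fun (by fun_prop) (by fun_prop)
  rw [Measure.prod_apply_symm hE]
  refine (lintegral_eq_zero_of_ae_eq_zero ?_)
  refine Filter.Eventually.of_forall (fun m => ?_)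
  show (μ.prod ν) ((fun x : ℝ × ℝ => (x, m)) ⁻¹' {p : (ℝ × ℝ) × ℝ | p.1.2 - p.2 = p.1.1}) = 0
  have hE2 : MeasurableSet ((fun x : ℝ × ℝ => (x, m)) ⁻¹'
      {p : (ℝ × ℝ) × ℝ | p.1.2 - p.2 = p.1.1}) := measurableSet_preimage (by fun_prop) hE
  rw [Measure.prod_apply_symm hE2]
  refine (lintegral_eq_zero_of_ae_eq_zero ?_)
  refine Filter.Eventually.of_forall (fun a => ?_)
  have : ((fun x : ℝ => (x, a)) ⁻¹' ((fun x : ℝ × ℝ => (x, m)) ⁻¹'
      {p : (ℝ × ℝ) × ℝ | p.1.2 - p.2 = p.1.1})) = {a - m} := by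
    ext x
    simp [eq_comm]
  simp only [this, hμ]
  rfl

theorem bad_null (hB : IsPreBrownianReal B P) {a b c d : ℝ≥0} (hbc : b < c) : P {ω | Bad a b c d (fun t => B t ω)} = 0 := by
  have : IsProbabilityMeasure P := hB.isGaussianProcess.isProbabilityMeasure
  -- the three variables
  set N : Ω → ℝ := fun ω => B c ω - B b ω with hN
  set A : Ω → ℝ := fun ω => lo a b (fun t => B t ω) with hA
  set M : Ω → ℝ := fun ω => hi c d (fun t => B t ω) with hM
  have hbm : ∀ t, AEMeasurable (B t) P := hB.aemeasurable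
  have hNm : AEMeasurable N P := (hbm c).sub (hbm b)
  have hAm : AEMeasurable A P := AEMeasurable.iInf (fun s => (hbm _).sub (hbm _))
  have hMm : AEMeasurable M P := AEMeasurable.iSup (fun s => (hbm _).sub (hbm _))
  -- independence of (N, A) and M
  have h1 : IndepFun (fun ω => (N ω, A ω)) M P := by
    have hind := (hB.indepFun_shift c).symm
    let φ : (Set.Iic c → ℝ) → ℝ × ℝ := fun x =>
      (x ⟨c, Set.mem_Iic.2 le_rfl⟩ - x ⟨b, hbc.le⟩,
        ⨅ s : JJ a b, (x ⟨s, (s.2.1.2.trans hbc).le⟩ - x ⟨b, hbc.le⟩))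
    let ψ : (ℝ≥0 → ℝ) → ℝ := fun y => ⨆ t : JJ c d, y (t - c)
    have hφ : Measurable φ := by
      refine Measurable.prodMk (by fun_prop) ?_
      exact Measurable.iInf (fun s => by fun_prop)
    have hψ : Measurable ψ := Measurable.iSup (fun t => measurable_pi_apply _)
    have hc := hind.comp hφ hψ
    have e2 : ψ ∘ (fun ω t => B (c + t) ω - B c ω) = M := by
      funext ω
      simp only [Function.comp_apply, ψ, hM, hi]
      refine iSup_congr (fun t => ?_)
      rw [add_tsub_cancel_of_le t.2.1.1.le]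
    rw [e2] at hc
    exact hc
  have h2 : IndepFun N A P := by
    have hind := hB.indepFun_shift b
    let φ : (Set.Iic b → ℝ) → ℝ := fun x =>
        ⨅ s : JJ a b, (x ⟨s, s.2.1.2.le⟩ - x ⟨b, Set.mem_Iic.2 le_rfl⟩)
    let ψ : (ℝ≥0 → ℝ) → ℝ := fun y => y (c - b)
    have hφ : Measurable φ := Measurable.iInf (fun s => by fun_prop)
    have hψ : Measurable ψ := measurable_pi_apply _
    have hc := hind.comp hψ hφ
    have e2 : ψ ∘ (fun ω t => B (b + t) ω - B b ω) = N := by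
      funext ω
      simp only [Function.comp_apply, ψ, hN]
      rw [add_tsub_cancel_of_le hbc.le]
    rw [e2] at hc
    exact hc
  have hlaw : ∀ x, (P.map N) {x} = 0 := by
    have h3 := (hB.hasLaw_sub c b).map_eq
    have h4 : P.map N = gaussianReal 0 (nndist c.1 b.1) := h3
    intro x
    rw [h4]
    have hne : nndist c.1 b.1 ≠ 0 := by
      intro h0
      have : (c : ℝ) = b := nndist_eq_zero.1 h0
      exact hbc.ne' (NNReal.coe_injective this)
    have := nullSingletonClass_gaussianReal (μ := 0) hne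
    exact measure_singleton x
  have hmap : P.map (fun ω => ((N ω, A ω), M ω)) = ((P.map N).prod (P.map A)).prod (P.map M) := by
    rw [(indepFun_iff_map_prod_eq_prod_map_map (hNm.prodMk hAm) hMm).1 h1,
      (indepFun_iff_map_prod_eq_prod_map_map hNm hAm).1 h2]
  have hE : MeasurableSet {p : (ℝ × ℝ) × ℝ | p.1.2 - p.2 = p.1.1} :=
    measurableSet_eq_fun (by fun_prop) (by fun_prop)
  have hfin : P {ω | Bad a b c d (fun t => B t ω)} =
      P.map (fun ω => ((N ω, A ω), M ω)) {p : (ℝ × ℝ) × ℝ | p.1.2 - p.2 = p.1.1} := by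
    rw [Measure.map_apply_of_aemeasurable ((hNm.prodMk hAm).prodMk hMm) hE]
    rfl
  rw [hfin, hmap]
  exact prod_null hlaw

/-- grid cells around two distinct times -/
theorem exists_grid {s t : ℝ} (hs : 0 ≤ s) (hst : s < t) (ht : t ≤ 1) {ε : ℝ} (hε : 0 < ε) :
    ∃ m i j : ℕ, 0 < m ∧ i + 1 < j ∧ j + 1 ≤ m ∧ (1 : ℝ) / m < ε ∧
      (i : ℝ) / m ≤ s ∧ s ≤ ((i + 1 : ℕ) : ℝ) / m ∧
      (j : ℝ) / m ≤ t ∧ t ≤ ((j + 1 : ℕ) : ℝ) / m := by
  obtain ⟨m, hm⟩ := exists_nat_gt (max (1 / ε) (2 / (t - s)))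
  have hm1 : 1 / ε < m := lt_of_le_of_lt (le_max_left _ _) hm
  have hm2 : 2 / (t - s) < m := lt_of_le_of_lt (le_max_right _ _) hm
  have hts : 0 < t - s := by linarith
  have hmpos : (0 : ℝ) < m := lt_trans (by positivity) hm1
  have hm0 : 0 < m := by exact_mod_cast hmpos
  have hk1 : 1 < m * ε := by rwa [div_lt_iff₀ hε] at hm1
  have hk2 : 2 < m * (t - s) := by rwa [div_lt_iff₀ hts] at hm2
  have hfl1 : (⌊(m : ℝ) * s⌋₊ : ℝ) ≤ m * s := Nat.floor_le (by positivity)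
  have hfl2 : (m : ℝ) * s < ⌊(m : ℝ) * s⌋₊ + 1 := Nat.lt_floor_add_one _
  have hmt : 0 < (m : ℝ) * t := mul_pos hmpos (by linarith)
  have hc1 : (m : ℝ) * t ≤ ⌈(m : ℝ) * t⌉₊ := Nat.le_ceil _
  have hc2 : (⌈(m : ℝ) * t⌉₊ : ℝ) < m * t + 1 := Nat.ceil_lt_add_one hmt.le
  have hcpos : 0 < ⌈(m : ℝ) * t⌉₊ := Nat.ceil_pos.2 hmt
  obtain ⟨j, hj⟩ : ∃ j, ⌈(m : ℝ) * t⌉₊ = j + 1 := ⟨⌈(m : ℝ) * t⌉₊ - 1, by omega⟩
  rw [hj] at hc1 hc2
  push_cast at hc1 hc2
  refine ⟨m, ⌊(m : ℝ) * s⌋₊, j, hm0, ?_, ?_, ?_, ?_, ?_, ?_, ?_⟩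
  · have : ((⌊(m : ℝ) * s⌋₊ : ℝ) + 1) < j := by nlinarith
    exact_mod_cast this
  · have : (⌈(m : ℝ) * t⌉₊) ≤ m := by
      refine Nat.ceil_le.2 ?_
      nlinarith
    omega
  · rw [div_lt_iff₀ hmpos]; linarith
  · rw [div_le_iff₀ hmpos]; linarith
  · rw [le_div_iff₀ hmpos]; push_cast; linarith
  · rw [div_le_iff₀ hmpos]; linarith
  · rw [le_div_iff₀ hmpos]; push_cast; linarith

/-- a time in the unit interval as a nonnegative real -/
noncomputable def tn (t : UI) : ℝ≥0 := Real.toNNReal (t : ℝ)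

theorem coe_tn (t : UI) : ((tn t : ℝ≥0) : ℝ) = (t : ℝ) := Real.coe_toNNReal _ t.2.1

theorem continuous_tn : Continuous tn := continuous_real_toNNReal.comp continuous_subtype_val

/-- the restriction of a path to the unit interval as a continuous function -/
noncomputable def pathC (f : ℝ≥0 → ℝ) : C(UI, ℝ) :=
  ContinuousMap.mkD (fun t : UI => f (tn t)) 0

theorem pathC_apply {f : ℝ≥0 → ℝ} (hf : Continuous f) (t : UI) :
    pathC f t = f (tn t) := by
  have hc : Continuous (fun t : UI => f (tn t)) := hf.comp continuous_tn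
  unfold pathC
  rw [ContinuousMap.mkD_of_continuous hc]
  rfl

/-- a nonnegative real at most one as a point of the unit interval -/
def ofN (s : ℝ≥0) (h : (s : ℝ) ≤ 1) : UI := ⟨(s : ℝ), NNReal.coe_nonneg s, h⟩

theorem coe_ofN (s : ℝ≥0) (h : (s : ℝ) ≤ 1) : ((ofN s h : UI) : ℝ) = (s : ℝ) := rfl

theorem tn_ofN (s : ℝ≥0) (h : (s : ℝ) ≤ 1) : tn (ofN s h) = s := by
  rw [← NNReal.coe_inj, coe_tn, coe_ofN]

theorem spSet_pathC {f : ℝ≥0 → ℝ} (hf : Continuous f) : spSet (pathC f) = spanSet f := by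
  ext u
  constructor
  · rintro ⟨s, t, hst, hw, hu⟩
    rw [pathC_apply hf, pathC_apply hf] at hw
    refine ⟨tn s, tn t, ?_, ?_, hw, ?_⟩
    · rw [← NNReal.coe_le_coe, coe_tn, coe_tn]; exact hst
    · rw [← NNReal.coe_le_coe, coe_tn]; exact t.2.2
    · rw [coe_tn, coe_tn]; exact hu
  · rintro ⟨s, t, hst, ht, hw, hu⟩
    have ht' : (t : ℝ) ≤ 1 := by exact_mod_cast ht
    have hst' : (s : ℝ) ≤ t := by exact_mod_cast hst
    refine ⟨ofN s (by linarith), ofN t ht', hst', ?_, hu⟩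
    rw [pathC_apply hf, pathC_apply hf, tn_ofN, tn_ofN]
    exact hw

theorem spC_pathC {f : ℝ≥0 → ℝ} (hf : Continuous f) : spC (pathC f) = pathSpan f := by
  refine SetLike.coe_injective ?_
  rw [coe_spC, coe_pathSpan_of_continuous hf, spSet_pathC hf]

/-- if no bad event happens then one sign occurs near any pair -/
theorem sign_of_not_bad {f : ℝ≥0 → ℝ} (hf : Continuous f)
    (hbad : ∀ m i j : ℕ, 0 < m → i + 1 < j →
      ¬ Bad ((i : ℝ≥0) / m) (((i + 1 : ℕ) : ℝ≥0) / m) ((j : ℝ≥0) / m) (((j + 1 : ℕ) : ℝ≥0) / m) f)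
    (s t : UI) (hst : s < t) (heq : pathC f s = pathC f t) {ε : ℝ} (hε : 0 < ε) :
    ∃ s' t' : UI, dist s' s < ε ∧ dist t' t < ε ∧ pathC f s' < pathC f t' := by
  by_contra hcon
  push Not at hcon
  have hst' : (s : ℝ) < t := hst
  obtain ⟨m, i, j, hm, hij, hjm, hmε, hi1, hi2, hj1, hj2⟩ := exists_grid s.2.1 hst' t.2.2 hε
  have hmr : (0 : ℝ≥0) < m := by exact_mod_cast hm
  have hmr' : (0 : ℝ) < m := by exact_mod_cast hm
  refine hbad m i j hm hij ?_
  have hstep : ∀ k : ℕ, (k : ℝ≥0) / m < ((k + 1 : ℕ) : ℝ≥0) / m := by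
    intro k
    rw [← NNReal.coe_lt_coe]
    push_cast
    exact div_lt_div_of_pos_right (by linarith) hmr'
  refine bad_of (hstep i) (hstep j) hf (s0 := tn s) (t0 := tn t)
    ?_ ?_ ?_ ?_
  · constructor
    · rw [← NNReal.coe_le_coe, coe_tn]; push_cast; exact hi1
    · rw [← NNReal.coe_le_coe, coe_tn]; push_cast; push_cast at hi2; exact hi2
  · constructor
    · rw [← NNReal.coe_le_coe, coe_tn]; push_cast; exact hj1
    · rw [← NNReal.coe_le_coe, coe_tn]; push_cast; push_cast at hj2; exact hj2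
  · rw [← pathC_apply hf, ← pathC_apply hf]; exact heq
  · rintro s' ⟨hs1, hs2⟩ t' ⟨ht1, ht2⟩
    rw [← NNReal.coe_le_coe] at hs1 hs2 ht1 ht2
    push_cast at hs1 hs2 ht1 ht2 hi2 hj2
    have hi3 : ((i : ℝ) + 1) / m ≤ 1 := by
      rw [div_le_one hmr']
      have : i + 1 ≤ m := by omega
      exact_mod_cast this
    have hj3 : ((j : ℝ) + 1) / m ≤ 1 := by
      rw [div_le_one hmr']
      exact_mod_cast hjm
    have es : ((i : ℝ) + 1) / m = i / m + 1 / m := by ring
    have et : ((j : ℝ) + 1) / m = j / m + 1 / m := by ring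
    have := hcon (ofN s' (by linarith)) (ofN t' (by linarith)) ?_ ?_
    · rw [pathC_apply hf, pathC_apply hf, tn_ofN, tn_ofN] at this
      exact this
    · rw [Subtype.dist_eq, Real.dist_eq, abs_lt, coe_ofN]
      constructor <;> linarith
    · rw [Subtype.dist_eq, Real.dist_eq, abs_lt, coe_ofN]
      constructor <;> linarith

theorem ae_not_bad (hB : IsPreBrownianReal B P) :
    ∀ᵐ ω ∂P, ∀ m i j : ℕ, 0 < m → i + 1 < j →
      ¬ Bad ((i : ℝ≥0) / m) (((i + 1 : ℕ) : ℝ≥0) / m) ((j : ℝ≥0) / m) (((j + 1 : ℕ) : ℝ≥0) / m)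
        (fun t => B t ω) := by
  rw [ae_all_iff]; intro m
  rw [ae_all_iff]; intro i
  rw [ae_all_iff]; intro j
  by_cases hm : 0 < m
  · by_cases hij : i + 1 < j
    · have hmr' : (0 : ℝ) < m := by exact_mod_cast hm
      have hlt : ∀ k l : ℕ, k < l → (k : ℝ≥0) / m < (l : ℝ≥0) / m := by
        intro k l hkl
        rw [← NNReal.coe_lt_coe]
        push_cast
        have : (k : ℝ) < l := by exact_mod_cast hkl
        exact div_lt_div_of_pos_right this hmr'
      have h := bad_null (a := (i : ℝ≥0) / m) (d := ((j + 1 : ℕ) : ℝ≥0) / m) hB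
        (hlt (i + 1) j hij)
      have h2 : ∀ᵐ ω ∂P, ¬ Bad ((i : ℝ≥0) / m) (((i + 1 : ℕ) : ℝ≥0) / m) ((j : ℝ≥0) / m)
          (((j + 1 : ℕ) : ℝ≥0) / m) (fun t => B t ω) := by
        rw [ae_iff]
        simpa using h
      filter_upwards [h2] with ω hω _ _ using hω
    · exact Filter.Eventually.of_forall (fun ω _ h => absurd h hij)
  · exact Filter.Eventually.of_forall (fun ω h => absurd h hm)

theorem ae_good (hB : IsBrownianReal B P) : ∀ᵐ ω ∂P, Good (pathC (fun t => B t ω)) := by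
  have h1 := ae_not_bad hB.toIsPreBrownianReal
  have h2 := ae_not_bad hB.neg.toIsPreBrownianReal
  filter_upwards [h1, h2, hB.cont, hB.neg.cont] with ω h1 h2 hc hcn
  intro s t hst heq ε hε
  have hneg : ∀ t : UI, pathC (fun t => (-B) t ω) t = - pathC (fun t => B t ω) t := by
    intro t
    rw [pathC_apply hcn, pathC_apply hc]
    rfl
  refine ⟨sign_of_not_bad hc h1 s t hst heq hε, ?_⟩
  obtain ⟨s', t', hs', ht', hlt⟩ := sign_of_not_bad hcn h2 s t hst
    (by rw [hneg, hneg, heq]) hε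
  rw [hneg, hneg] at hlt
  exact ⟨s', t', hs', ht', by linarith⟩

end Span52e894
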