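import Mathlib

/-!
# Span sets of Brownian motion and of simple random walk: definitions
-/

open MeasureTheory ProbabilityTheory Filter TopologicalSpace Set
open scoped NNReal ENNReal Topology

namespace Span52e894

/-- The unit interval as a metric space. -/
abbrev UI : Type := Set.Icc (0 : ℝ) 1

/-- The space of nonempty compact subsets of `[0,1]`; Mathlib equips it with the Hausdorff
metric. -/
abbrev KK : Type := NonemptyCompacts UI

/-- The Borel sigma-algebra of the Hausdorff metric on the space of nonempty compact subsets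
of `[0,1]`. -/
instance instMeasurableSpaceKK : MeasurableSpace KK := borel KK

instance instBorelSpaceKK : BorelSpace KK := ⟨rfl⟩

/-- The set of spans of a path `b : [0,∞) → ℝ` inside the time interval `[0,1]`: all `t - s`
with `0 ≤ s ≤ t ≤ 1` and `b s = b t`. -/
def spanSet (b : ℝ≥0 → ℝ) : Set UI :=
  {u | ∃ s t : ℝ≥0, s ≤ t ∧ t ≤ 1 ∧ b s = b t ∧ (u : ℝ) = (t : ℝ) - (s : ℝ)}

/-- The rescaled set of spans of a walk `S : ℕ → ℤ` in `N` steps: all `(k - l) / N`
with `0 ≤ l ≤ k ≤ N` and `S l = S k`. -/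
def walkSpanSet (N : ℕ) (S : ℕ → ℤ) : Set UI :=
  {u | ∃ l k : ℕ, l ≤ k ∧ k ≤ N ∧ S l = S k ∧ (u : ℝ) = ((k : ℝ) - (l : ℝ)) / (N : ℝ)}

theorem zero_mem_spanSet (b : ℝ≥0 → ℝ) : (⟨0, by simp⟩ : UI) ∈ spanSet b :=
  ⟨0, 0, le_rfl, zero_le_one, rfl, by simp⟩

theorem zero_mem_walkSpanSet (N : ℕ) (S : ℕ → ℤ) : (⟨0, by simp⟩ : UI) ∈ walkSpanSet N S :=
  ⟨0, 0, le_rfl, Nat.zero_le _, rfl, by simp⟩

/-- The closure of a nonempty subset of `[0,1]`, as a nonempty compact set. -/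
noncomputable def closureKK (A : Set UI) (h : A.Nonempty) : KK :=
  ⟨⟨closure A, isClosed_closure.isCompact⟩, h.closure⟩

/-- The span set of a path, as a nonempty compact subset of `[0,1]`. (The closure is only taken
so that the definition makes sense for all functions `b`; for a continuous path the span set is
already closed.) -/
noncomputable def pathSpan (b : ℝ≥0 → ℝ) : KK := closureKK (spanSet b) ⟨_, zero_mem_spanSet b⟩

theorem walkSpanSet_finite (N : ℕ) (S : ℕ → ℤ) : (walkSpanSet N S).Finite := by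
  have h : (Set.image (Subtype.val : UI → ℝ) (walkSpanSet N S)).Finite := by
    refine (((Finset.range (N + 1)) ×ˢ (Finset.range (N + 1))).image
      (fun p : ℕ × ℕ => ((p.2 : ℝ) - (p.1 : ℝ)) / (N : ℝ))).finite_toSet.subset ?_
    rintro x ⟨u, ⟨l, k, hlk, hkN, _, hu⟩, rfl⟩
    simp only [Finset.coe_image, Set.mem_image, Finset.mem_coe, Finset.mem_product,
      Finset.mem_range]
    exact ⟨(l, k), ⟨by omega, by omega⟩, hu.symm⟩
  exact Set.Finite.of_finite_image h Subtype.val_injective.injOn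

/-- The rescaled span set of a walk in `N` steps, as a nonempty compact subset of `[0,1]`
(it is a finite set). -/
def walkSpan (N : ℕ) (S : ℕ → ℤ) : KK :=
  ⟨⟨walkSpanSet N S, (walkSpanSet_finite N S).isCompact⟩, ⟨_, zero_mem_walkSpanSet N S⟩⟩

theorem coe_walkSpan (N : ℕ) (S : ℕ → ℤ) : (walkSpan N S : Set UI) = walkSpanSet N S := rfl

theorem coe_pathSpan (b : ℝ≥0 → ℝ) : (pathSpan b : Set UI) = closure (spanSet b) := rfl

/-- For a continuous path the span set is closed. -/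
theorem isClosed_spanSet {b : ℝ≥0 → ℝ} (hb : Continuous b) : IsClosed (spanSet b) := by
  have hK : IsCompact {p : ℝ≥0 × ℝ≥0 | p.1 ≤ p.2 ∧ p.2 ≤ 1 ∧ b p.1 = b p.2} := by
    have h1 : IsCompact (Set.Icc (0 : ℝ≥0) 1 ×ˢ Set.Icc (0 : ℝ≥0) 1) :=
      isCompact_Icc.prod isCompact_Icc
    refine h1.of_isClosed_subset ?_ ?_
    · have e1 : IsClosed {p : ℝ≥0 × ℝ≥0 | p.1 ≤ p.2} := isClosed_le continuous_fst continuous_snd
      have e2 : IsClosed {p : ℝ≥0 × ℝ≥0 | p.2 ≤ 1} := isClosed_le continuous_snd continuous_const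
      have e3 : IsClosed {p : ℝ≥0 × ℝ≥0 | b p.1 = b p.2} :=
        isClosed_eq (hb.comp continuous_fst) (hb.comp continuous_snd)
      exact e1.inter (e2.inter e3)
    · rintro ⟨s, t⟩ ⟨h1, h2, _⟩
      simp only [Set.mem_prod, Set.mem_Icc]
      exact ⟨⟨zero_le, le_trans h1 h2⟩, zero_le, h2⟩
  have hK2 : IsCompact (Set.image (fun p : ℝ≥0 × ℝ≥0 => (p.2 : ℝ) - (p.1 : ℝ))
      {p : ℝ≥0 × ℝ≥0 | p.1 ≤ p.2 ∧ p.2 ≤ 1 ∧ b p.1 = b p.2}) :=
    hK.image (by fun_prop)
  have : spanSet b = (Subtype.val : UI → ℝ) ⁻¹' (Set.image (fun p : ℝ≥0 × ℝ≥0 =>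
      (p.2 : ℝ) - (p.1 : ℝ)) {p : ℝ≥0 × ℝ≥0 | p.1 ≤ p.2 ∧ p.2 ≤ 1 ∧ b p.1 = b p.2}) := by
    ext u
    constructor
    · rintro ⟨s, t, h1, h2, h3, h4⟩
      exact ⟨(s, t), ⟨h1, h2, h3⟩, h4.symm⟩
    · rintro ⟨⟨s, t⟩, ⟨h1, h2, h3⟩, h4⟩
      exact ⟨s, t, h1, h2, h3, h4.symm⟩
  rw [this]
  exact hK2.isClosed.preimage continuous_subtype_val

theorem coe_pathSpan_of_continuous {b : ℝ≥0 → ℝ} (hb : Continuous b) :
    (pathSpan b : Set UI) = spanSet b := (isClosed_spanSet hb).closure_eq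

end Span52e894
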