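import Pool.Agent.Work.MP_52e894_pr.Defs

/-!
# Deterministic part: continuity of the span map at good paths
-/

open MeasureTheory ProbabilityTheory Filter TopologicalSpace Set
open scoped NNReal ENNReal Topology

namespace Span52e894

/-- span set of a continuous function on the unit interval -/
def spSet (w : C(UI, ℝ)) : Set UI :=
  {u | ∃ s t : UI, s ≤ t ∧ w s = w t ∧ (u : ℝ) = (t : ℝ) - (s : ℝ)}

theorem isClosed_spSet (w : C(UI, ℝ)) : IsClosed (spSet w) := by
  have e1 : IsClosed {p : UI × UI | p.1 ≤ p.2} := isClosed_le continuous_fst continuous_snd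
  have e2 : IsClosed {p : UI × UI | w p.1 = w p.2} :=
    isClosed_eq (w.continuous.comp continuous_fst) (w.continuous.comp continuous_snd)
  have hK : IsCompact {p : UI × UI | p.1 ≤ p.2 ∧ w p.1 = w p.2} := (e1.inter e2).isCompact
  have hK2 : IsCompact (Set.image (fun p : UI × UI => (p.2 : ℝ) - (p.1 : ℝ))
      {p : UI × UI | p.1 ≤ p.2 ∧ w p.1 = w p.2}) := hK.image (by fun_prop)
  have : spSet w = (Subtype.val : UI → ℝ) ⁻¹' (Set.image (fun p : UI × UI =>
      (p.2 : ℝ) - (p.1 : ℝ)) {p : UI × UI | p.1 ≤ p.2 ∧ w p.1 = w p.2}) := by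
    ext u
    constructor
    · rintro ⟨s, t, h1, h3, h4⟩
      exact ⟨(s, t), ⟨h1, h3⟩, h4.symm⟩
    · rintro ⟨⟨s, t⟩, ⟨h1, h3⟩, h4⟩
      exact ⟨s, t, h1, h3, h4.symm⟩
  rw [this]
  exact hK2.isClosed.preimage continuous_subtype_val

theorem zero_mem_spSet (w : C(UI, ℝ)) : (⟨0, by simp⟩ : UI) ∈ spSet w :=
  ⟨⟨0, by simp⟩, ⟨0, by simp⟩, le_rfl, rfl, by simp⟩

/-- span set as a nonempty compact set -/
def spC (w : C(UI, ℝ)) : KK :=
  ⟨⟨spSet w, (isClosed_spSet w).isCompact⟩, ⟨_, zero_mem_spSet w⟩⟩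

theorem coe_spC (w : C(UI, ℝ)) : (spC w : Set UI) = spSet w := rfl

/-- good paths: near any pair of times with equal values both signs of the increment occur -/
def Good (w : C(UI, ℝ)) : Prop :=
  ∀ s t : UI, s < t → w s = w t → ∀ ε : ℝ, 0 < ε →
    (∃ s' t' : UI, dist s' s < ε ∧ dist t' t < ε ∧ w s' < w t') ∧
    (∃ s' t' : UI, dist s' s < ε ∧ dist t' t < ε ∧ w t' < w s')

/-- intermediate value theorem along a segment -/
theorem exists_zero_near (w : C(UI, ℝ)) (s t : UI) (ε : ℝ) (hst : (s : ℝ) + 2 * ε ≤ t)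
    (h1 : ∃ s' t' : UI, dist s' s < ε ∧ dist t' t < ε ∧ w s' < w t')
    (h2 : ∃ s' t' : UI, dist s' s < ε ∧ dist t' t < ε ∧ w t' < w s') :
    ∃ a b : UI, a ≤ b ∧ w a = w b ∧ dist a s < ε ∧ dist b t < ε := by
  obtain ⟨s1, t1, hs1, ht1, hw1⟩ := h1
  obtain ⟨s2, t2, hs2, ht2, hw2⟩ := h2
  -- extension of w
  set W : ℝ → ℝ := Set.IccExtend (zero_le_one' ℝ) w with hW
  have hWc : Continuous W := w.continuous.Icc_extend'
  have hWeq : ∀ x : UI, W x = w x := fun x => by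
    rw [hW, Set.IccExtend_val]
  let sa : ℝ → ℝ := fun l => (1 - l) * s1 + l * s2
  let ta : ℝ → ℝ := fun l => (1 - l) * t1 + l * t2
  have hg : Continuous (fun l : ℝ => W (ta l) - W (sa l)) := by
    have e1 : Continuous ta := by fun_prop
    have e2 : Continuous sa := by fun_prop
    exact (hWc.comp e1).sub (hWc.comp e2)
  have h0 : 0 ∈ Set.Icc ((fun l : ℝ => W (ta l) - W (sa l)) 1)
      ((fun l : ℝ => W (ta l) - W (sa l)) 0) := by
    have a1 : ta 1 = t2 := by simp [ta]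
    have a2 : sa 1 = s2 := by simp [sa]
    have a3 : ta 0 = t1 := by simp [ta]
    have a4 : sa 0 = s1 := by simp [sa]
    simp only [a1, a2, a3, a4, hWeq]
    constructor <;> linarith
  obtain ⟨l, hl, hl0⟩ := intermediate_value_Icc' (zero_le_one' ℝ) hg.continuousOn h0
  have hconv : ∀ (x y z : UI), dist x z < ε → dist y z < ε →
      (1 - l) * (x : ℝ) + l * y ∈ Set.Icc (0 : ℝ) 1 ∧
      |((1 - l) * (x : ℝ) + l * y) - z| < ε := by
    intro x y z hx hy
    obtain ⟨l0, l1⟩ := hl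
    obtain ⟨x0, x1⟩ := x.2
    obtain ⟨y0, y1⟩ := y.2
    rw [Subtype.dist_eq, Real.dist_eq, abs_lt] at hx hy
    refine ⟨⟨?_, ?_⟩, ?_⟩
    · have := mul_nonneg (sub_nonneg.2 l1) x0
      have := mul_nonneg l0 y0
      linarith
    · have := mul_nonneg (sub_nonneg.2 l1) (sub_nonneg.2 x1)
      have := mul_nonneg l0 (sub_nonneg.2 y1)
      nlinarith
    · rw [abs_lt]
      constructor
      · rcases eq_or_lt_of_le l0 with h | h
        · rw [← h]; linarith
        · nlinarith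
      · rcases eq_or_lt_of_le l0 with h | h
        · rw [← h]; linarith
        · nlinarith
  obtain ⟨hs, hs'⟩ := hconv s1 s2 s hs1 hs2
  obtain ⟨ht, ht'⟩ := hconv t1 t2 t ht1 ht2
  refine ⟨⟨_, hs⟩, ⟨_, ht⟩, ?_, ?_, ?_, ?_⟩
  · rw [Subtype.mk_le_mk]
    rw [abs_lt] at hs' ht'
    linarith [hs'.2, ht'.1]
  · have : W (ta l) - W (sa l) = 0 := hl0
    have e1 : W (ta l) = w ⟨_, ht⟩ := hWeq ⟨_, ht⟩
    have e2 : W (sa l) = w ⟨_, hs⟩ := hWeq ⟨_, hs⟩
    rw [e1, e2] at this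
    linarith
  · rw [Subtype.dist_eq, Real.dist_eq]; exact hs'
  · rw [Subtype.dist_eq, Real.dist_eq]; exact ht'

theorem dist_spC_le {w w' : C(UI, ℝ)} {r : ℝ} (hr : 0 ≤ r)
    (h1 : ∀ u ∈ spSet w, ∃ v ∈ spSet w', dist u v ≤ r)
    (h2 : ∀ u ∈ spSet w', ∃ v ∈ spSet w, dist u v ≤ r) : dist (spC w) (spC w') ≤ r := by
  rw [Metric.NonemptyCompacts.dist_eq]
  exact Metric.hausdorffDist_le_of_mem_dist hr h1 h2

/-- lower semicontinuity at good paths -/
theorem lower_part {w : C(UI, ℝ)} (hw : Good w) {ε : ℝ} (hε : 0 < ε) {u : UI}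
    (hu : u ∈ spSet w) : ∀ᶠ w' in 𝓝 w, ∃ v ∈ spSet w', dist u v < ε := by
  rcases lt_or_ge (u : ℝ) ε with hlt | hge
  · refine Filter.Eventually.of_forall (fun w' => ⟨_, zero_mem_spSet w', ?_⟩)
    rw [Subtype.dist_eq, Real.dist_eq]
    have := u.2.1
    rw [abs_lt]; constructor <;> simp <;> linarith
  · obtain ⟨s, t, hst, hwst, hust⟩ := hu
    have hst' : s < t := by
      rw [← Subtype.coe_lt_coe]
      linarith
    set δ := ε / 4 with hδ
    have hδ0 : 0 < δ := by positivity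
    obtain ⟨⟨s1, t1, hs1, ht1, hw1⟩, ⟨s2, t2, hs2, ht2, hw2⟩⟩ := hw s t hst' hwst δ hδ0
    have c1 : ∀ᶠ w' : C(UI, ℝ) in 𝓝 w, w' s1 < w' t1 := by
      have a1 : Continuous (fun w' : C(UI, ℝ) => w' s1) := continuous_eval_const s1
      have a2 : Continuous (fun w' : C(UI, ℝ) => w' t1) := continuous_eval_const t1
      exact a1.continuousAt.eventually_lt a2.continuousAt hw1
    have c2 : ∀ᶠ w' : C(UI, ℝ) in 𝓝 w, w' t2 < w' s2 := by
      have a1 : Continuous (fun w' : C(UI, ℝ) => w' s2) := continuous_eval_const s2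
      have a2 : Continuous (fun w' : C(UI, ℝ) => w' t2) := continuous_eval_const t2
      exact a2.continuousAt.eventually_lt a1.continuousAt hw2
    filter_upwards [c1, c2] with w' h1 h2
    obtain ⟨a, b, hab, hwab, ha, hb⟩ := exists_zero_near w' s t δ (by linarith)
      ⟨s1, t1, hs1, ht1, h1⟩ ⟨s2, t2, hs2, ht2, h2⟩
    have hab' : (a : ℝ) ≤ b := hab
    refine ⟨⟨(b : ℝ) - a, by linarith, by linarith [b.2.2, a.2.1]⟩, ⟨a, b, hab, hwab, rfl⟩, ?_⟩
    rw [Subtype.dist_eq, Real.dist_eq] at *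
    rw [abs_lt] at *
    simp only
    constructor <;> linarith [ha.1, ha.2, hb.1, hb.2]

/-- upper semicontinuity at all paths -/
theorem upper_part (w : C(UI, ℝ)) {ε : ℝ} (hε : 0 < ε) :
    ∀ᶠ w' in 𝓝 w, ∀ u ∈ spSet w', ∃ v ∈ spSet w, dist u v < ε := by
  -- compact set of bad pairs
  let K : Set (UI × UI) := {p | p.1 ≤ p.2 ∧ ∀ v ∈ spSet w, ε ≤ |((p.2 : ℝ) - p.1) - v|}
  have hKc : IsClosed K := by
    have e1 : IsClosed {p : UI × UI | p.1 ≤ p.2} := isClosed_le continuous_fst continuous_snd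
    have e2 : IsClosed {p : UI × UI | ∀ v ∈ spSet w, ε ≤ |((p.2 : ℝ) - p.1) - v|} := by
      have : {p : UI × UI | ∀ v ∈ spSet w, ε ≤ |((p.2 : ℝ) - p.1) - v|} =
          ⋂ v ∈ spSet w, {p : UI × UI | ε ≤ |((p.2 : ℝ) - p.1) - v|} := by
        ext p; simp
      rw [this]
      refine isClosed_biInter (fun v _ => isClosed_le continuous_const (by fun_prop))
    exact e1.inter e2
  have hKK : IsCompact K := hKc.isCompact
  have hpos : ∀ p ∈ K, 0 < |w p.2 - w p.1| := by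
    intro p hp
    rw [abs_pos]
    intro h0
    have hle : (p.1 : ℝ) ≤ p.2 := hp.1
    have hmem : (⟨(p.2 : ℝ) - p.1, by linarith, by linarith [p.2.2.2, p.1.2.1]⟩ : UI) ∈ spSet w :=
      ⟨p.1, p.2, hp.1, by linarith, rfl⟩
    have := hp.2 _ hmem
    simp at this
    linarith
  obtain ⟨m, hm, hKm⟩ : ∃ m : ℝ, 0 < m ∧ ∀ p ∈ K, m ≤ |w p.2 - w p.1| := by
    rcases K.eq_empty_or_nonempty with hK0 | hK1
    · exact ⟨1, one_pos, by simp [hK0]⟩
    · obtain ⟨p, hp, hmin⟩ := hKK.exists_isMinOn hK1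
        (f := fun p : UI × UI => |w p.2 - w p.1|) (by fun_prop)
      exact ⟨_, hpos p hp, fun q hq => hmin hq⟩
  filter_upwards [Metric.ball_mem_nhds w (half_pos hm)] with w' hw' u hu
  obtain ⟨s, t, hst, hwst, hust⟩ := hu
  by_contra hcon
  push Not at hcon
  have hK' : (s, t) ∈ K := by
    refine ⟨hst, fun v hv => ?_⟩
    have := hcon v hv
    rw [Subtype.dist_eq, Real.dist_eq, hust] at this
    exact this
  have h1 := hKm _ hK'
  simp only at h1
  have hd1 : |w' s - w s| < m / 2 := by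
    have := (ContinuousMap.dist_apply_le_dist (f := w') (g := w) s).trans_lt
      (Metric.mem_ball.1 hw')
    rwa [Real.dist_eq] at this
  have hd2 : |w' t - w t| < m / 2 := by
    have := (ContinuousMap.dist_apply_le_dist (f := w') (g := w) t).trans_lt
      (Metric.mem_ball.1 hw')
    rwa [Real.dist_eq] at this
  rw [abs_lt] at hd1 hd2
  have : |w t - w s| < m := by
    rw [abs_lt]
    constructor <;> linarith [hd1.1, hd1.2, hd2.1, hd2.2]
  linarith

theorem continuousAt_spC {w : C(UI, ℝ)} (hw : Good w) : ContinuousAt spC w := by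
  rw [Metric.continuousAt_iff']
  intro ε hε
  have hcpt : IsCompact (spSet w) := (isClosed_spSet w).isCompact
  obtain ⟨T, hTsub, hTfin, hTcov⟩ := hcpt.finite_cover_balls (show (0 : ℝ) < ε / 4 by positivity)
  have h1 : ∀ᶠ w' in 𝓝 w, ∀ u ∈ T, ∃ v ∈ spSet w', dist u v < ε / 4 :=
    (Filter.eventually_all_finite hTfin).2 (fun u hu => lower_part hw (by positivity) (hTsub hu))
  have h2 := upper_part w (show (0 : ℝ) < ε / 2 by positivity)
  filter_upwards [h1, h2] with w' h1 h2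
  have : dist (spC w') (spC w) ≤ ε / 2 := by
    refine dist_spC_le (by positivity) (fun u hu => ?_) (fun u hu => ?_)
    · obtain ⟨v, hv, hd⟩ := h2 u hu
      exact ⟨v, hv, hd.le⟩
    · obtain ⟨c, hc, huc⟩ := Set.mem_iUnion₂.1 (hTcov hu)
      obtain ⟨v, hv, hd⟩ := h1 c hc
      refine ⟨v, hv, ?_⟩
      have := dist_triangle u c v
      rw [Metric.mem_ball] at huc
      linarith
  linarith

end Span52e894
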