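import Pool.Agent.Work.MP_52e894_pr.Defs

/-!
# Polygonal interpolation and the chaining bound
-/

open MeasureTheory ProbabilityTheory Filter TopologicalSpace Set
open scoped NNReal ENNReal Topology

namespace Span52e894

/-- clamp to the unit interval -/
noncomputable def ramp (y : ℝ) : ℝ := max 0 (min y 1)

theorem continuous_ramp : Continuous ramp := by unfold ramp; fun_prop

theorem ramp_nonneg (y : ℝ) : 0 ≤ ramp y := le_max_left _ _

theorem ramp_le_one (y : ℝ) : ramp y ≤ 1 := max_le zero_le_one (min_le_right _ _)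

theorem ramp_of_nonpos {y : ℝ} (h : y ≤ 0) : ramp y = 0 := by
  unfold ramp; rw [min_eq_left (by linarith), max_eq_left h]

theorem ramp_of_one_le {y : ℝ} (h : 1 ≤ y) : ramp y = 1 := by
  unfold ramp; rw [min_eq_right h, max_eq_right zero_le_one]

theorem ramp_of_mem {y : ℝ} (h0 : 0 ≤ y) (h1 : y ≤ 1) : ramp y = y := by
  unfold ramp; rw [min_eq_left h1, max_eq_right h0]

theorem ramp_mono {x y : ℝ} (h : x ≤ y) : ramp x ≤ ramp y := by
  unfold ramp; exact max_le_max le_rfl (min_le_min h le_rfl)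

theorem ramp_eq_sub (y : ℝ) : ramp y = max 0 y - max 0 (y - 1) := by
  rcases le_total y 0 with h | h
  · rw [ramp_of_nonpos h, max_eq_left h, max_eq_left (by linarith)]; ring
  · rcases le_total y 1 with h' | h'
    · rw [ramp_of_mem h h', max_eq_right h, max_eq_left (by linarith)]; ring
    · rw [ramp_of_one_le h', max_eq_right h, max_eq_right (by linarith)]; ring

theorem sum_ramp (M : ℕ) (y : ℝ) :
    ∑ i ∈ Finset.range M, ramp (y - i) = max 0 y - max 0 (y - M) := by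
  induction M with
  | zero => simp
  | succ M ih =>
    rw [Finset.sum_range_succ, ih, ramp_eq_sub]
    push_cast
    rw [show y - ((M : ℝ) + 1) = y - M - 1 by ring]
    ring

/-- `r (1 - r)` is dominated by a telescoping difference -/
theorem ramp_mul_one_sub_le (y : ℝ) : ramp y * (1 - ramp y) ≤ ramp y - ramp (y - 1) := by
  rcases le_total y 0 with h | h
  · rw [ramp_of_nonpos h, ramp_of_nonpos (by linarith : y - 1 ≤ 0)]; simp
  · rcases le_total y 1 with h' | h'
    · rw [ramp_of_mem h h', ramp_of_nonpos (by linarith : y - 1 ≤ 0)]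
      nlinarith
    · rw [ramp_of_one_le h']
      have := ramp_le_one (y - 1)
      linarith

theorem sum_ramp_mul_one_sub_le (M : ℕ) (y : ℝ) :
    ∑ i ∈ Finset.range M, ramp (y - i) * (1 - ramp (y - i)) ≤ 1 := by
  have h1 : ∑ i ∈ Finset.range M, ramp (y - i) * (1 - ramp (y - i)) ≤
      ∑ i ∈ Finset.range M, (ramp (y - i) - ramp (y - (i + 1 : ℕ))) := by
    refine Finset.sum_le_sum (fun i _ => ?_)
    have := ramp_mul_one_sub_le (y - i)
    push_cast
    rw [show y - ((i : ℝ) + 1) = y - i - 1 by ring]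
    exact this
  have h2 : ∑ i ∈ Finset.range M, (ramp (y - i) - ramp (y - (i + 1 : ℕ))) =
      ramp (y - (0 : ℕ)) - ramp (y - M) := Finset.sum_range_sub' (fun i => ramp (y - i)) M
  rw [h2] at h1
  have := ramp_le_one (y - (0 : ℕ))
  have := ramp_nonneg (y - M)
  linarith

/-- products of ramps sum to the minimum, up to an error at most one -/
theorem abs_sum_ramp_mul_ramp_sub_min_le (M : ℕ) {a b : ℝ} (ha : 0 ≤ a) (hb : 0 ≤ b)
    (haM : a ≤ M) (hbM : b ≤ M) :
    |∑ i ∈ Finset.range M, ramp (a - i) * ramp (b - i) - min a b| ≤ 1 := by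
  wlog hab : a ≤ b generalizing a b
  · have := this hb ha hbM haM (le_of_not_ge hab)
    rw [min_comm]
    simp_rw [mul_comm (ramp (a - _))]
    exact this
  rw [min_eq_left hab]
  have h1 : ∑ i ∈ Finset.range M, ramp (a - i) = a := by
    rw [sum_ramp, max_eq_right ha, max_eq_left (by linarith)]; ring
  have h2 : ∑ i ∈ Finset.range M, ramp (a - i) * ramp (b - i) - a =
      - ∑ i ∈ Finset.range M, ramp (a - i) * (1 - ramp (b - i)) := by
    rw [← Finset.sum_neg_distrib]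
    conv_lhs => rw [← h1]
    rw [h1]
    nth_rewrite 2 [← h1]
    rw [← Finset.sum_sub_distrib]
    refine Finset.sum_congr rfl (fun i _ => by ring)
  rw [h2, abs_neg, abs_of_nonneg]
  · refine le_trans (Finset.sum_le_sum (fun i _ => ?_)) (sum_ramp_mul_one_sub_le M a)
    refine mul_le_mul_of_nonneg_left ?_ (ramp_nonneg _)
    have := ramp_mono (show a - i ≤ b - i by linarith)
    linarith
  · refine Finset.sum_nonneg (fun i _ => mul_nonneg (ramp_nonneg _) ?_)
    have := ramp_le_one (b - i)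
    linarith

/-- the ramp as a continuous function on the unit interval -/
noncomputable def rampC (M i : ℕ) : C(UI, ℝ) :=
  ⟨fun t => ramp ((M : ℝ) * (t : ℝ) - (i : ℝ)), continuous_ramp.comp (by fun_prop)⟩

theorem rampC_apply (M i : ℕ) (t : UI) :
    rampC M i t = ramp ((M : ℝ) * (t : ℝ) - (i : ℝ)) := rfl

/-- polygonal line through the points `(k/M, x k)` -/
noncomputable def polyLine (M : ℕ) (x : ℕ → ℝ) : C(UI, ℝ) :=
  x 0 • (1 : C(UI, ℝ)) + ∑ i ∈ Finset.range M, (x (i + 1) - x i) • rampC M i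

theorem polyLine_apply (M : ℕ) (x : ℕ → ℝ) (t : UI) :
    polyLine M x t = x 0 + ∑ i ∈ Finset.range M,
      (x (i + 1) - x i) * ramp ((M : ℝ) * (t : ℝ) - (i : ℝ)) := by
  simp [polyLine, rampC_apply]

theorem continuous_polyLine (M : ℕ) : Continuous (polyLine M) := by
  unfold polyLine
  fun_prop

theorem sum_ramp_of_mem (x : ℕ → ℝ) (k : ℕ) {y : ℝ} (h0 : (k : ℝ) ≤ y) (h1 : y ≤ k + 1)
    (M : ℕ) (hM : k < M) :
    x 0 + ∑ i ∈ Finset.range M, (x (i + 1) - x i) * ramp (y - (i : ℝ)) =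
      x k + (x (k + 1) - x k) * (y - k) := by
  induction M, hM using Nat.le_induction with
  | base =>
    rw [Finset.sum_range_succ, ramp_of_mem (by linarith) (by linarith)]
    have : ∑ i ∈ Finset.range k, (x (i + 1) - x i) * ramp (y - (i : ℝ)) =
        ∑ i ∈ Finset.range k, (x (i + 1) - x i) := by
      refine Finset.sum_congr rfl (fun i hi => ?_)
      rw [Finset.mem_range] at hi
      have : (i : ℝ) + 1 ≤ k := by exact_mod_cast hi
      rw [ramp_of_one_le (by linarith), mul_one]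
    rw [this, Finset.sum_range_sub]
    ring
  | succ M hM ih =>
    rw [Finset.sum_range_succ, ← add_assoc, ih]
    have : (k : ℝ) + 1 ≤ M := by exact_mod_cast hM
    rw [ramp_of_nonpos (by linarith)]
    ring

theorem polyLine_apply_of_mem (M : ℕ) (x : ℕ → ℝ) (k : ℕ) (hk : k < M) (t : UI)
    (h0 : (k : ℝ) ≤ M * t) (h1 : (M : ℝ) * t ≤ k + 1) :
    polyLine M x t = x k + (x (k + 1) - x k) * (M * t - k) := by
  rw [polyLine_apply, sum_ramp_of_mem x k h0 h1 M hk]

/-- extension of a function on the unit interval to the line -/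
noncomputable def ext (w : C(UI, ℝ)) : ℝ → ℝ := Set.IccExtend (zero_le_one' ℝ) w

theorem continuous_ext (w : C(UI, ℝ)) : Continuous (ext w) := w.continuous.Icc_extend'

theorem ext_coe (w : C(UI, ℝ)) (t : UI) : ext w t = w t := Set.IccExtend_val _ _ _

theorem ext_of_mem (w : C(UI, ℝ)) {x : ℝ} (hx : x ∈ Set.Icc (0 : ℝ) 1) :
    ext w x = w ⟨x, hx⟩ := Set.IccExtend_of_mem _ _ hx

theorem continuous_ext_eval (x : ℝ) : Continuous (fun w : C(UI, ℝ) => ext w x) := by
  unfold ext Set.IccExtend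
  exact continuous_eval_const _

/-- dyadic polygonal approximation -/
noncomputable def dya (n : ℕ) (w : C(UI, ℝ)) : C(UI, ℝ) :=
  polyLine (2 ^ n) (fun k => ext w ((k : ℝ) / 2 ^ n))

/-- dyadic increments -/
noncomputable def dinc (j k : ℕ) (w : C(UI, ℝ)) : ℝ :=
  ext w (((k : ℝ) + 1) / 2 ^ j) - ext w ((k : ℝ) / 2 ^ j)

/-- bound for all dyadic increments of level `j` -/
noncomputable def ebd (j : ℕ) (w : C(UI, ℝ)) : ℝ :=
  (7 / 8 : ℝ) ^ j + (((7 / 8 : ℝ) ^ j)⁻¹) ^ 3 * ∑ k ∈ Finset.range (2 ^ j), (dinc j k w) ^ 4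

theorem ebd_nonneg (j : ℕ) (w : C(UI, ℝ)) : 0 ≤ ebd j w := by
  unfold ebd
  have : 0 ≤ ∑ k ∈ Finset.range (2 ^ j), (dinc j k w) ^ 4 :=
    Finset.sum_nonneg (fun k _ => by positivity)
  positivity

theorem le_add_pow_four {L d : ℝ} (hL0 : 0 < L) (hd0 : 0 ≤ d) :
    d ≤ L + (L⁻¹) ^ 3 * d ^ 4 := by
  rcases le_total d L with h | h
  · have : 0 ≤ (L⁻¹) ^ 3 * d ^ 4 := by positivity
    linarith
  · have e : (L⁻¹) ^ 3 * d ^ 4 = d * (d / L) ^ 3 := by field_simp
    have h1 : 1 ≤ d / L := (one_le_div hL0).2 h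
    have h2 : 1 ≤ (d / L) ^ 3 := one_le_pow₀ h1
    rw [e]
    nlinarith

theorem abs_dinc_le (j k : ℕ) (hk : k < 2 ^ j) (w : C(UI, ℝ)) : |dinc j k w| ≤ ebd j w := by
  have hS : (dinc j k w) ^ 4 ≤ ∑ k ∈ Finset.range (2 ^ j), (dinc j k w) ^ 4 :=
    Finset.single_le_sum (f := fun k => (dinc j k w) ^ 4) (fun k _ => by positivity)
      (Finset.mem_range.2 hk)
  have hd4 : (dinc j k w) ^ 4 = |dinc j k w| ^ 4 := (Even.pow_abs (by decide) _).symm
  rw [hd4] at hS
  have hL0 : (0 : ℝ) < (7 / 8 : ℝ) ^ j := by positivity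
  have h1 := le_add_pow_four hL0 (abs_nonneg (dinc j k w))
  have h2 := mul_le_mul_of_nonneg_left hS (show (0 : ℝ) ≤ (((7 / 8 : ℝ) ^ j)⁻¹) ^ 3 by positivity)
  unfold ebd
  linarith

theorem step_le (w : C(UI, ℝ)) (t : UI) (j : ℕ) :
    |ext w ((⌊(t : ℝ) * 2 ^ (j + 1)⌋₊ : ℝ) / 2 ^ (j + 1)) -
      ext w ((⌊(t : ℝ) * 2 ^ j⌋₊ : ℝ) / 2 ^ j)| ≤ ebd (j + 1) w := by
  set a := ⌊(t : ℝ) * 2 ^ j⌋₊ with ha
  set b := ⌊(t : ℝ) * 2 ^ (j + 1)⌋₊ with hb
  have ht0 := t.2.1
  have ht1 := t.2.2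
  have ha1 : (a : ℝ) ≤ t * 2 ^ j := Nat.floor_le (by positivity)
  have ha2 : (t : ℝ) * 2 ^ j < a + 1 := Nat.lt_floor_add_one _
  have hb1 : (b : ℝ) ≤ t * 2 ^ (j + 1) := Nat.floor_le (by positivity)
  have hb2 : (t : ℝ) * 2 ^ (j + 1) < b + 1 := Nat.lt_floor_add_one _
  have e1 : (t : ℝ) * 2 ^ (j + 1) = 2 * (t * 2 ^ j) := by ring
  rw [e1] at hb1 hb2
  have c1 : 2 * a < b + 1 := by
    have : (2 * a : ℝ) < b + 1 := by linarith
    exact_mod_cast this
  have c2 : b < 2 * a + 2 := by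
    have : (b : ℝ) < 2 * a + 2 := by linarith
    exact_mod_cast this
  have e2 : ((a : ℝ) / 2 ^ j) = ((2 * a : ℕ) : ℝ) / 2 ^ (j + 1) := by
    push_cast; field_simp; ring
  rcases (by omega : b = 2 * a ∨ b = 2 * a + 1) with h | h
  · rw [e2, h, sub_self, abs_zero]
    exact ebd_nonneg _ _
  · have hlt : 2 * a < 2 ^ (j + 1) := by
      have h3 : (b : ℝ) ≤ 2 ^ (j + 1) := by
        have : (t : ℝ) * 2 ^ j ≤ 2 ^ j := by
          have := mul_le_mul_of_nonneg_right ht1 (show (0 : ℝ) ≤ 2 ^ j by positivity)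
          linarith
        have e : (2 : ℝ) ^ (j + 1) = 2 * 2 ^ j := by ring
        rw [e]; linarith
      have h4 : b ≤ 2 ^ (j + 1) := by exact_mod_cast h3
      omega
    have := abs_dinc_le (j + 1) (2 * a) hlt w
    unfold dinc at this
    rw [e2, h]
    push_cast at this ⊢
    exact this

theorem chain_partial (w : C(UI, ℝ)) (t : UI) (n p : ℕ) :
    |ext w ((⌊(t : ℝ) * 2 ^ (n + p)⌋₊ : ℝ) / 2 ^ (n + p)) -
      ext w ((⌊(t : ℝ) * 2 ^ n⌋₊ : ℝ) / 2 ^ n)| ≤ ∑ j ∈ Finset.range p, ebd (n + (j + 1)) w := by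
  induction p with
  | zero => simp
  | succ p ih =>
    rw [Finset.sum_range_succ]
    have h1 := step_le w t (n + p)
    rw [show n + p + 1 = n + (p + 1) by ring] at h1
    have := abs_sub_le (ext w ((⌊(t : ℝ) * 2 ^ (n + (p + 1))⌋₊ : ℝ) / 2 ^ (n + (p + 1))))
      (ext w ((⌊(t : ℝ) * 2 ^ (n + p)⌋₊ : ℝ) / 2 ^ (n + p)))
      (ext w ((⌊(t : ℝ) * 2 ^ n⌋₊ : ℝ) / 2 ^ n))
    linarith

theorem tendsto_floor_dyadic (t : UI) :
    Tendsto (fun p : ℕ => ((⌊(t : ℝ) * 2 ^ p⌋₊ : ℝ) / 2 ^ p)) atTop (𝓝 (t : ℝ)) := by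
  have h := tendsto_nat_floor_mul_div_atTop (R := ℝ) t.2.1
  exact h.comp (tendsto_pow_atTop_atTop_of_one_lt (by norm_num : (1 : ℝ) < 2))

theorem chain_le (w : C(UI, ℝ)) (t : UI) (n : ℕ) :
    ENNReal.ofReal |w t - ext w ((⌊(t : ℝ) * 2 ^ n⌋₊ : ℝ) / 2 ^ n)| ≤
      ∑' j, ENNReal.ofReal (ebd (n + (j + 1)) w) := by
  have h1 : Tendsto (fun p : ℕ => ENNReal.ofReal
      |ext w ((⌊(t : ℝ) * 2 ^ (n + p)⌋₊ : ℝ) / 2 ^ (n + p)) -
      ext w ((⌊(t : ℝ) * 2 ^ n⌋₊ : ℝ) / 2 ^ n)|) atTop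
      (𝓝 (ENNReal.ofReal |w t - ext w ((⌊(t : ℝ) * 2 ^ n⌋₊ : ℝ) / 2 ^ n)|)) := by
    refine (ENNReal.continuous_ofReal.tendsto _).comp ?_
    refine (continuous_abs.tendsto _).comp ?_
    refine Tendsto.sub_const ?_ _
    have h2 : Tendsto (fun p : ℕ => ((⌊(t : ℝ) * 2 ^ (n + p)⌋₊ : ℝ) / 2 ^ (n + p))) atTop
        (𝓝 (t : ℝ)) :=
      (tendsto_floor_dyadic t).comp (tendsto_add_atTop_nat n |>.congr (fun p => by ring))
    have h3 := ((continuous_ext w).tendsto (t : ℝ)).comp h2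
    rw [ext_coe] at h3
    exact h3
  refine le_of_tendsto' h1 (fun p => ?_)
  refine (ENNReal.ofReal_le_ofReal (chain_partial w t n p)).trans ?_
  rw [ENNReal.ofReal_sum_of_nonneg (fun j _ => ebd_nonneg _ _)]
  exact ENNReal.sum_le_tsum _

/-- pointwise chaining bound -/
theorem chain_apply (w : C(UI, ℝ)) (t : UI) (n : ℕ) :
    ENNReal.ofReal |w t - dya n w t| ≤ ∑' j, ENNReal.ofReal (ebd (n + j) w) := by
  have hsplit : ∑' j, ENNReal.ofReal (ebd (n + j) w) =
      ENNReal.ofReal (ebd n w) + ∑' j, ENNReal.ofReal (ebd (n + (j + 1)) w) := by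
    rw [tsum_eq_zero_add' (f := fun j => ENNReal.ofReal (ebd (n + j) w)) ENNReal.summable]
    simp
  have hch := chain_le w t n
  set k := ⌊(t : ℝ) * 2 ^ n⌋₊ with hk
  have ht0 := t.2.1
  have ht1 := t.2.2
  have hk1 : (k : ℝ) ≤ t * 2 ^ n := Nat.floor_le (by positivity)
  have hk2 : (t : ℝ) * 2 ^ n < k + 1 := Nat.lt_floor_add_one _
  have key : |w t - dya n w t| ≤ |w t - ext w ((k : ℝ) / 2 ^ n)| + ebd n w := by
    rcases lt_or_ge k (2 ^ n) with hlt | hge
    · have h1 : dya n w t = ext w ((k : ℝ) / 2 ^ n) + dinc n k w * (2 ^ n * t - k) := by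
        unfold dya dinc
        rw [polyLine_apply_of_mem (2 ^ n) _ k hlt t (by push_cast; linarith)
          (by push_cast; linarith)]
        push_cast
        ring
      have h2 := abs_dinc_le n k hlt w
      have h3 : |dinc n k w * (2 ^ n * t - k)| ≤ ebd n w := by
        rw [abs_mul]
        have : |(2 : ℝ) ^ n * t - k| ≤ 1 := by
          rw [abs_le]; constructor <;> linarith
        calc |dinc n k w| * |(2 : ℝ) ^ n * t - k| ≤ |dinc n k w| * 1 :=
              mul_le_mul_of_nonneg_left this (abs_nonneg _)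
          _ ≤ ebd n w := by rw [mul_one]; exact h2
      have h4 : w t - dya n w t = (w t - ext w ((k : ℝ) / 2 ^ n)) -
          dinc n k w * (2 ^ n * t - k) := by rw [h1]; ring
      rw [h4]
      exact (abs_sub _ _).trans (by linarith)
    · -- then t = 1
      have hge' : (2 : ℝ) ^ n ≤ k := by exact_mod_cast hge
      have hpow : (0 : ℝ) < 2 ^ n := by positivity
      have ht : (t : ℝ) = 1 := by
        have : (1 : ℝ) * 2 ^ n ≤ t * 2 ^ n := by linarith
        have := le_of_mul_le_mul_right this hpow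
        linarith
      have hk' : (k : ℝ) = 2 ^ n := by
        rw [ht] at hk1; linarith
      have h1 : dya n w t = w t := by
        unfold dya
        have hM : 2 ^ n - 1 < 2 ^ n := Nat.sub_lt (by positivity) one_pos
        have hc : (((2 ^ n - 1 : ℕ)) : ℝ) = 2 ^ n - 1 := by
          rw [Nat.cast_sub (Nat.one_le_two_pow)]; push_cast; ring
        rw [polyLine_apply_of_mem (2 ^ n) _ (2 ^ n - 1) hM t (by push_cast; rw [hc, ht]; linarith)
          (by push_cast; rw [hc, ht]; linarith)]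
        rw [hc, ht]
        push_cast
        rw [hc]
        have e1 : ext w ((2 ^ n - 1 + 1 : ℝ) / 2 ^ n) = w t := by
          rw [sub_add_cancel, div_self hpow.ne']
          have e0 := ext_coe w t
          rw [ht] at e0
          exact e0
        rw [e1]
        ring
      rw [h1, sub_self, abs_zero]
      have := abs_nonneg (w t - ext w ((k : ℝ) / 2 ^ n))
      have := ebd_nonneg n w
      linarith
  refine (ENNReal.ofReal_le_ofReal key).trans ?_
  rw [ENNReal.ofReal_add (abs_nonneg _) (ebd_nonneg _ _), hsplit, add_comm]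
  exact add_le_add le_rfl hch

/-- uniform chaining bound -/
theorem chain_edist (w : C(UI, ℝ)) (n : ℕ) :
    edist w (dya n w) ≤ ∑' j, ENNReal.ofReal (ebd (n + j) w) := by
  by_cases htop : ∑' j, ENNReal.ofReal (ebd (n + j) w) = ⊤
  · rw [htop]; exact le_top
  · rw [edist_dist]
    refine ENNReal.ofReal_le_of_le_toReal ?_
    rw [ContinuousMap.dist_le ENNReal.toReal_nonneg]
    intro t
    rw [Real.dist_eq]
    have := chain_apply w t n
    exact (ENNReal.ofReal_le_iff_le_toReal htop).1 this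

end Span52e894
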