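import Pool.Agent.Work.MP_52e894_pr.Determ
import Pool.Agent.Work.MP_52e894_pr.Poly

/-!
# The span set of a walk versus the span set of its polygonal interpolation
-/

open MeasureTheory ProbabilityTheory Filter TopologicalSpace Set
open scoped NNReal ENNReal Topology

namespace Span52e894

theorem polyLine_node (M : ℕ) (hM : 0 < M) (x : ℕ → ℝ) (k : ℕ) (hk : k ≤ M) (t : UI)
    (ht : (t : ℝ) = (k : ℝ) / M) : polyLine M x t = x k := by
  have hM' : (0 : ℝ) < M := by exact_mod_cast hM
  have e : (M : ℝ) * t = k := by rw [ht]; field_simp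
  rcases lt_or_ge k M with h | h
  · rw [polyLine_apply_of_mem M x k h t (by rw [e]) (by rw [e]; linarith), e]
    ring
  · have hkM : k = M := le_antisymm hk h
    obtain ⟨p, rfl⟩ : ∃ p, k = p + 1 := ⟨k - 1, by omega⟩
    rw [polyLine_apply_of_mem M x p (by omega) t (by rw [e]; push_cast; linarith)
      (by rw [e]; push_cast; linarith), e]
    push_cast
    ring

/-- every time lies in one of the grid cells -/
theorem exists_cell (N : ℕ) (hN : 0 < N) (y : ℝ) (h0 : 0 ≤ y) (h1 : y ≤ N) :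
    (min ⌊y⌋₊ (N - 1) < N) ∧ ((min ⌊y⌋₊ (N - 1) : ℕ) : ℝ) ≤ y ∧
      y ≤ ((min ⌊y⌋₊ (N - 1) : ℕ) : ℝ) + 1 := by
  have hfl : (⌊y⌋₊ : ℝ) ≤ y := Nat.floor_le h0
  have hfl2 : y < ⌊y⌋₊ + 1 := Nat.lt_floor_add_one _
  refine ⟨by omega, ?_, ?_⟩
  · have : ((min ⌊y⌋₊ (N - 1) : ℕ) : ℝ) ≤ ⌊y⌋₊ := by exact_mod_cast min_le_left _ _
    linarith
  · rcases le_total ⌊y⌋₊ (N - 1) with h | h
    · rw [min_eq_left h]; linarith
    · rw [min_eq_right h]
      have : ((N - 1 : ℕ) : ℝ) + 1 = N := by
        have : (N - 1) + 1 = N := by omega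
        exact_mod_cast this
      linarith

/-- in each cell the integer part of the interpolated value is a walk value -/
theorem exists_floor (S : ℕ → ℤ) (hS : ∀ k, S (k + 1) = S k + 1 ∨ S (k + 1) = S k - 1)
    (a : ℕ) (th : ℝ) (h0 : 0 ≤ th) (h1 : th ≤ 1) (v : ℝ)
    (hv : v = S a + ((S (a + 1) : ℝ) - S a) * th) :
    ∃ l : ℕ, (l = a ∨ l = a + 1) ∧ S l = ⌊v⌋ := by
  rcases hS a with h | h
  · have hv' : v = S a + th := by rw [hv, h]; push_cast; ring
    rcases eq_or_lt_of_le h1 with h2 | h2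
    · refine ⟨a + 1, Or.inr rfl, ?_⟩
      symm
      rw [Int.floor_eq_iff, h, hv', h2]
      push_cast
      constructor <;> linarith
    · refine ⟨a, Or.inl rfl, ?_⟩
      symm
      rw [Int.floor_eq_iff, hv']
      constructor <;> linarith
  · have hv' : v = S a - th := by rw [hv, h]; push_cast; ring
    rcases eq_or_lt_of_le h0 with h2 | h2
    · refine ⟨a, Or.inl rfl, ?_⟩
      symm
      rw [Int.floor_eq_iff, hv', ← h2]
      constructor <;> linarith
    · refine ⟨a + 1, Or.inr rfl, ?_⟩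
      symm
      rw [Int.floor_eq_iff, h, hv']
      push_cast
      constructor <;> linarith

theorem dist_walkSpan_le (N : ℕ) (hN : 0 < N) (S : ℕ → ℤ)
    (hS : ∀ k, S (k + 1) = S k + 1 ∨ S (k + 1) = S k - 1) (c : ℝ) (hc : 0 < c) :
    dist (walkSpan N S) (spC (polyLine N (fun k => c * S k))) ≤ 2 / N := by
  have hN' : (0 : ℝ) < N := by exact_mod_cast hN
  rw [Metric.NonemptyCompacts.dist_eq]
  refine Metric.hausdorffDist_le_of_mem_dist (by positivity) ?_ ?_
  · -- walk spans are spans of the interpolation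
    intro u hu
    rw [coe_walkSpan] at hu
    obtain ⟨l, k, hlk, hkN, hS', hu'⟩ := hu
    refine ⟨u, ?_, by rw [dist_self]; positivity⟩
    have hlN : l ≤ N := le_trans hlk hkN
    have hk1 : (k : ℝ) / N ≤ 1 := by
      rw [div_le_one hN']; exact_mod_cast hkN
    have hl1 : (l : ℝ) / N ≤ 1 := by
      rw [div_le_one hN']; exact_mod_cast hlN
    refine ⟨⟨(l : ℝ) / N, by positivity, hl1⟩, ⟨(k : ℝ) / N, by positivity, hk1⟩, ?_, ?_, ?_⟩
    · have : (l : ℝ) / N ≤ (k : ℝ) / N :=
        div_le_div_of_nonneg_right (by exact_mod_cast hlk) hN'.le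
      exact this
    · rw [polyLine_node N hN _ l hlN _ rfl, polyLine_node N hN _ k hkN _ rfl, hS']
    · rw [hu']; simp only; ring
  · -- spans of the interpolation are close to walk spans
    intro u hu
    obtain ⟨s, t, hst, hw, hu'⟩ := hu
    have hs0 := s.2.1
    have hs1 := s.2.2
    have ht0 := t.2.1
    have ht1 := t.2.2
    have hst' : (s : ℝ) ≤ t := hst
    have hNs0 : (0 : ℝ) ≤ N * s := by positivity
    have hNt0 : (0 : ℝ) ≤ N * t := by positivity
    have hNs1 : (N : ℝ) * s ≤ N := by nlinarith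
    have hNt1 : (N : ℝ) * t ≤ N := by nlinarith
    obtain ⟨ha1, ha2, ha3⟩ := exists_cell N hN (N * s) hNs0 hNs1
    obtain ⟨hb1, hb2, hb3⟩ := exists_cell N hN (N * t) hNt0 hNt1
    have hab : min ⌊(N : ℝ) * s⌋₊ (N - 1) ≤ min ⌊(N : ℝ) * t⌋₊ (N - 1) := by
      refine min_le_min ?_ le_rfl
      exact Nat.floor_mono (by nlinarith)
    set a := min ⌊(N : ℝ) * s⌋₊ (N - 1) with haa
    set b := min ⌊(N : ℝ) * t⌋₊ (N - 1) with hbb
    rcases eq_or_lt_of_le hab with heq | hlt
    · refine ⟨⟨0, by simp⟩, ?_, ?_⟩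
      · rw [coe_walkSpan]; exact zero_mem_walkSpanSet N S
      · rw [Subtype.dist_eq, Real.dist_eq, hu']
        simp only [sub_zero]
        rw [abs_of_nonneg (by linarith), le_div_iff₀ hN']
        rw [heq] at ha2
        linarith [mul_comm (N : ℝ) s, mul_comm (N : ℝ) t]
    · rw [polyLine_apply_of_mem N _ a ha1 s ha2 ha3, polyLine_apply_of_mem N _ b hb1 t hb2 hb3]
        at hw
      set v : ℝ := S a + ((S (a + 1) : ℝ) - S a) * (N * s - a) with hv
      have hv2 : v = S b + ((S (b + 1) : ℝ) - S b) * (N * t - b) := by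
        have h1 : c * v = c * (S b + ((S (b + 1) : ℝ) - S b) * (N * t - b)) := by
          rw [hv]; linarith
        exact mul_left_cancel₀ hc.ne' h1
      obtain ⟨l, hl, hSl⟩ := exists_floor S hS a (N * s - a) (by linarith) (by linarith) v hv
      obtain ⟨k, hk, hSk⟩ := exists_floor S hS b (N * t - b) (by linarith) (by linarith) v hv2
      have hlk : l ≤ k := by omega
      have hkN : k ≤ N := by omega
      have hl' : |(l : ℝ) - N * s| ≤ 1 := by
        rw [abs_le]
        rcases hl with h | h <;> rw [h] <;> push_cast <;> constructor <;> linarith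
      have hk' : |(k : ℝ) - N * t| ≤ 1 := by
        rw [abs_le]
        rcases hk with h | h <;> rw [h] <;> push_cast <;> constructor <;> linarith
      have hlkr : (l : ℝ) ≤ k := by exact_mod_cast hlk
      have hkNr : (k : ℝ) ≤ N := by exact_mod_cast hkN
      have hl0 : (0 : ℝ) ≤ l := Nat.cast_nonneg _
      refine ⟨⟨((k : ℝ) - l) / N, div_nonneg (by linarith) hN'.le, ?_⟩, ?_, ?_⟩
      · rw [div_le_one hN']; linarith
      · rw [coe_walkSpan]
        exact ⟨l, k, hlk, hkN, by rw [hSl, hSk], rfl⟩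
      · rw [Subtype.dist_eq, Real.dist_eq, hu']
        simp only
        have e : (t : ℝ) - s - ((k : ℝ) - l) / N = ((l - N * s) - (k - N * t)) / N := by
          field_simp; ring
        rw [e, abs_div, abs_of_pos hN']
        refine div_le_div_of_nonneg_right ?_ hN'.le
        exact (abs_sub _ _).trans (by linarith)

end Span52e894
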