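import Pool.Agent.Work.MP_52e894_pr.Tight
import Pool.Agent.Work.MP_52e894_pr.Walk

/-!
# Donsker's invariance principle for the simple random walk
-/

open MeasureTheory ProbabilityTheory Filter TopologicalSpace Set
open scoped NNReal ENNReal Topology

namespace Span52e894

theorem polyLine_congr (M : ℕ) {x y : ℕ → ℝ} (h : ∀ k ≤ M, x k = y k) :
    polyLine M x = polyLine M y := by
  unfold polyLine
  rw [h 0 (Nat.zero_le _)]
  congr 1
  refine Finset.sum_congr rfl (fun i hi => ?_)
  rw [Finset.mem_range] at hi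
  rw [h i hi.le, h (i + 1) hi]

/-- interpolation of a finite vector -/
noncomputable def vecLine (M : ℕ) (v : EuclideanSpace ℝ (Fin (M + 1))) : C(UI, ℝ) :=
  polyLine M (fun k => if h : k < M + 1 then v ⟨k, h⟩ else 0)

theorem continuous_vecLine (M : ℕ) : Continuous (vecLine M) := by
  refine (continuous_polyLine M).comp (continuous_pi (fun k => ?_))
  by_cases h : k < M + 1
  · simp only [h, dite_true]; fun_prop
  · simp only [h, dite_false]; fun_prop

/-- the dyadic grid in the unit interval -/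
noncomputable def grid (n : ℕ) (k : Fin (2 ^ n + 1)) : UI :=
  ⟨(k : ℝ) / 2 ^ n, dyadic_mem (Nat.lt_succ_iff.1 k.2)⟩

theorem dya_eq_vecLine (n : ℕ) (w : C(UI, ℝ)) :
    dya n w = vecLine (2 ^ n) (WithLp.toLp 2 (fun k => w (grid n k))) := by
  unfold dya vecLine
  refine polyLine_congr _ (fun k hk => ?_)
  rw [dif_pos (Nat.lt_succ_iff.2 hk), ext_of_mem _ (dyadic_mem hk)]
  rfl

/-- Lipschitz functionals of close random elements have close means -/
theorem abs_integral_sub_le {Ω E : Type*} [MeasurableSpace Ω] {P : Measure Ω}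
    [PseudoEMetricSpace E] {U V : Ω → E} {F : E → ℝ} {L : ℝ≥0} (hF : LipschitzWith L F)
    (hU : Integrable (fun ω => F (U ω)) P) (hV : Integrable (fun ω => F (V ω)) P)
    {e : ℝ} (he : 0 ≤ e) (h : ∫⁻ ω, edist (U ω) (V ω) ∂P ≤ ENNReal.ofReal e) :
    |∫ ω, F (U ω) ∂P - ∫ ω, F (V ω) ∂P| ≤ L * e := by
  rw [← integral_sub hU hV]
  have h1 : ‖∫ ω, (F (U ω) - F (V ω)) ∂P‖ₑ ≤ ENNReal.ofReal (L * e) := by
    refine (enorm_integral_le_lintegral_enorm _).trans ?_
    have h2 : ∀ ω, ‖F (U ω) - F (V ω)‖ₑ ≤ L * edist (U ω) (V ω) := by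
      intro ω
      rw [← edist_eq_enorm_sub]
      exact hF (U ω) (V ω)
    refine (lintegral_mono h2).trans ?_
    rw [lintegral_const_mul' _ _ ENNReal.coe_ne_top, ENNReal.ofReal_mul (NNReal.coe_nonneg L),
      ENNReal.ofReal_coe_nnreal]
    exact mul_le_mul_right h _
  rw [Real.enorm_eq_ofReal_abs, ENNReal.ofReal_le_ofReal_iff (by positivity)] at h1
  exact h1

/-- bounded functions composed with a.e. measurable maps are integrable -/
theorem integrable_of_bounded {Ω E : Type*} [MeasurableSpace Ω] {P : Measure Ω}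
    [IsProbabilityMeasure P] [MeasurableSpace E] [TopologicalSpace E] [BorelSpace E]
    {U : Ω → E} (hU : AEMeasurable U P) {F : E → ℝ} (hF : Continuous F)
    (hb : ∃ C : ℝ, ∀ x y, dist (F x) (F y) ≤ C) : Integrable (fun ω => F (U ω)) P := by
  obtain ⟨C, hC⟩ := hb
  have hne : Nonempty Ω := by
    by_contra hcon
    rw [not_nonempty_iff] at hcon
    have := measure_univ (μ := P)
    rw [Set.eq_empty_of_isEmpty (Set.univ : Set Ω), measure_empty] at this
    exact zero_ne_one this
  obtain ⟨ω0⟩ := hne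
  refine Integrable.of_bound (hF.measurable.comp_aemeasurable hU).aestronglyMeasurable
    (C + |F (U ω0)|) (Filter.Eventually.of_forall (fun ω => ?_))
  have h1 := hC (U ω) (U ω0)
  rw [Real.dist_eq] at h1
  rw [Real.norm_eq_abs]
  have h2 := abs_sub_abs_le_abs_sub (F (U ω)) (F (U ω0))
  linarith

variable {Ω Ω' : Type*} [MeasurableSpace Ω] [MeasurableSpace Ω'] {P : Measure Ω}
  {P' : Measure Ω'} {B : ℝ≥0 → Ω → ℝ}

theorem dya_convergence [IsProbabilityMeasure P] [IsProbabilityMeasure P']
    (hB : IsBrownianReal B P)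
    {X : ℕ → Ω' → ℝ} (hX : ∀ i, AEMeasurable (X i) P') (hind : iIndepFun X P')
    (h1 : ∀ i, P' {ω | X i ω = 1} = 1 / 2) (h2 : ∀ i, P' {ω | X i ω = -1} = 1 / 2) (n : ℕ) :
    TendstoInDistribution (fun N ω => dya n (wpath X N ω)) atTop
      (fun ω => dya n (pathC (fun t => B t ω))) (fun _ => P') P := by
  have hσ : ∀ k, ((tn (grid n k) : ℝ≥0) : ℝ) = grid n k := fun k => coe_tn _
  have hf := fdd_tendsto hB.toIsPreBrownianReal hX hind h1 h2 (grid n) (fun k => tn (grid n k)) hσ
  have hc := hf.continuous_comp (continuous_vecLine (2 ^ n))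
  refine hc.congr (fun N => ?_) ?_
  · refine Filter.Eventually.of_forall (fun ω => ?_)
    show vecLine (2 ^ n) (wVec (grid n) X N ω) = dya n (wpath X N ω)
    rw [dya_eq_vecLine]
    rfl
  · filter_upwards [hB.cont] with ω hω
    show vecLine (2 ^ n) (bmVec (fun k => tn (grid n k)) B ω) = _
    rw [dya_eq_vecLine]
    unfold bmVec
    simp_rw [pathC_apply hω]

/-- **Donsker's theorem** for the simple random walk, in the space of continuous functions. -/
theorem donsker [IsProbabilityMeasure P] [IsProbabilityMeasure P']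
    (hB : IsBrownianReal B P)
    {X : ℕ → Ω' → ℝ} (hX : ∀ i, AEMeasurable (X i) P') (hind : iIndepFun X P')
    (h1 : ∀ i, P' {ω | X i ω = 1} = 1 / 2) (h2 : ∀ i, P' {ω | X i ω = -1} = 1 / 2) :
    TendstoInDistribution (fun N ω => wpath X N ω) atTop
      (fun ω => pathC (fun t => B t ω)) (fun _ => P') P where
  forall_aemeasurable := fun N => aemeasurable_wpath hX N
  aemeasurable_limit := aemeasurable_pathC hB
  tendsto := by
    refine tendsto_iff_forall_lipschitz_integral_tendsto.2 ?_
    rintro F hFb ⟨L, hFL⟩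
    have hFc : Continuous F := hFL.continuous
    have eN : ∀ N, ∫ x, F x ∂(P'.map (fun ω => wpath X N ω)) = ∫ ω, F (wpath X N ω) ∂P' :=
      fun N => integral_map (aemeasurable_wpath hX N) hFc.measurable.aestronglyMeasurable
    have eB : ∫ x, F x ∂(P.map (fun ω => pathC (fun t => B t ω))) =
        ∫ ω, F (pathC (fun t => B t ω)) ∂P :=
      integral_map (aemeasurable_pathC hB) hFc.measurable.aestronglyMeasurable
    show Tendsto (fun N => ∫ x, F x ∂(P'.map (fun ω => wpath X N ω))) atTop
      (𝓝 (∫ x, F x ∂(P.map (fun ω => pathC (fun t => B t ω)))))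
    simp_rw [eN, eB]
    -- approximations
    have hdyaX : ∀ n N, AEMeasurable (fun ω => dya n (wpath X N ω)) P' := fun n N =>
      aemeasurable_dya (ext_wpath_aemeasurable hX N) n
    have hdyaB : ∀ n, AEMeasurable (fun ω => dya n (pathC (fun t => B t ω))) P := fun n =>
      aemeasurable_dya (ext_pathC_aemeasurable hB) n
    have hcl : ∀ n, Tendsto (fun N => ∫ ω, F (dya n (wpath X N ω)) ∂P') atTop
        (𝓝 (∫ ω, F (dya n (pathC (fun t => B t ω))) ∂P)) := by
      intro n
      have ht := (dya_convergence hB hX hind h1 h2 n).tendsto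
      have ht2 := tendsto_iff_forall_lipschitz_integral_tendsto.1 ht F hFb ⟨L, hFL⟩
      have a1 : ∀ N, ∫ x, F x ∂(P'.map (fun ω => dya n (wpath X N ω))) =
          ∫ ω, F (dya n (wpath X N ω)) ∂P' :=
        fun N => integral_map (hdyaX n N) hFc.measurable.aestronglyMeasurable
      have a2 : ∫ x, F x ∂(P.map (fun ω => dya n (pathC (fun t => B t ω)))) =
          ∫ ω, F (dya n (pathC (fun t => B t ω))) ∂P :=
        integral_map (hdyaB n) hFc.measurable.aestronglyMeasurable
      have ht3 : Tendsto (fun N => ∫ x, F x ∂(P'.map (fun ω => dya n (wpath X N ω)))) atTop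
        (𝓝 (∫ x, F x ∂(P.map (fun ω => dya n (pathC (fun t => B t ω)))))) := ht2
      simp_rw [a1, a2] at ht3
      exact ht3
    have hb1 : ∀ n N, |∫ ω, F (wpath X N ω) ∂P' - ∫ ω, F (dya n (wpath X N ω)) ∂P'| ≤
        L * (1160 * (7 / 8 : ℝ) ^ n) := by
      intro n N
      refine abs_integral_sub_le hFL (integrable_of_bounded (aemeasurable_wpath hX N) hFc hFb)
        (integrable_of_bounded (hdyaX n N) hFc hFb) (by positivity) ?_
      exact lintegral_edist_dya_le (ext_wpath_aemeasurable hX N)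
        (fun j k hk => moment_wpath hX hind h1 h2 N j k hk) n
    have hb2 : ∀ n, |∫ ω, F (pathC (fun t => B t ω)) ∂P -
        ∫ ω, F (dya n (pathC (fun t => B t ω))) ∂P| ≤ L * (1160 * (7 / 8 : ℝ) ^ n) := by
      intro n
      refine abs_integral_sub_le hFL (integrable_of_bounded (aemeasurable_pathC hB) hFc hFb)
        (integrable_of_bounded (hdyaB n) hFc hFb) (by positivity) ?_
      exact lintegral_edist_dya_le (ext_pathC_aemeasurable hB)
        (fun j k hk => moment_bm hB j k hk) n
    rw [Metric.tendsto_atTop]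
    intro ε hε
    have hlim : Tendsto (fun n : ℕ => (L : ℝ) * (1160 * (7 / 8 : ℝ) ^ n)) atTop (𝓝 0) := by
      have := ((tendsto_pow_atTop_nhds_zero_of_lt_one (by norm_num : (0 : ℝ) ≤ 7 / 8)
        (by norm_num)).const_mul 1160).const_mul (L : ℝ)
      simpa using this
    obtain ⟨n, hn⟩ := (hlim.eventually (gt_mem_nhds (show (0 : ℝ) < ε / 3 by positivity))).exists
    obtain ⟨N0, hN0⟩ := Metric.tendsto_atTop.1 (hcl n) (ε / 3) (by positivity)
    refine ⟨N0, fun N hN => ?_⟩
    have c1 := hb1 n N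
    have c2 := hb2 n
    have c3 := hN0 N hN
    rw [Real.dist_eq] at c3 ⊢
    rw [abs_lt] at c3 ⊢
    rw [abs_le] at c1 c2
    constructor <;> linarith [c1.1, c1.2, c2.1, c2.2, c3.1, c3.2]

end Span52e894
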