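import Pool.Agent.Work.MP_52e894_pr.Poly

/-!
# Convergence of finite-dimensional distributions
-/

open MeasureTheory ProbabilityTheory Filter TopologicalSpace Set
open scoped NNReal ENNReal Topology

namespace Span52e894

/-- Brownian motion sampled at finitely many times -/
noncomputable def bmVec {Ω : Type*} {m : ℕ} (τ : Fin m → ℝ≥0) (B : ℝ≥0 → Ω → ℝ) (ω : Ω) :
    EuclideanSpace ℝ (Fin m) := WithLp.toLp 2 (fun k => B (τ k) ω)

variable {Ω : Type*} [MeasurableSpace Ω] {P : Measure Ω} {B : ℝ≥0 → Ω → ℝ}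

theorem hasGaussianLaw_bmVec (hB : IsPreBrownianReal B P) {m : ℕ} (τ : Fin m → ℝ≥0) :
    HasGaussianLaw (bmVec τ B) P := by
  have h1 := hB.isGaussianProcess.hasGaussianLaw (Finset.univ.image τ)
  let L : (↥(Finset.univ.image τ) → ℝ) →L[ℝ] (Fin m → ℝ) :=
    ContinuousLinearMap.pi (fun k => ContinuousLinearMap.proj
      (⟨τ k, Finset.mem_image_of_mem τ (Finset.mem_univ k)⟩ : ↥(Finset.univ.image τ)))
  have h2 : HasGaussianLaw (fun ω => (fun k => B (τ k) ω : Fin m → ℝ)) P := h1.map_fun L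
  exact h2.toLp_pi 2

theorem charFun_bmVec (hB : IsPreBrownianReal B P) {m : ℕ} (τ : Fin m → ℝ≥0)
    (ξ : EuclideanSpace ℝ (Fin m)) :
    charFun (P.map (bmVec τ B)) ξ =
      Complex.exp (-(((∑ k, ∑ l, ξ k * ξ l * min (τ k : ℝ) (τ l)) : ℝ) : ℂ) / 2) := by
  have hG := hasGaussianLaw_bmVec hB τ
  have : IsProbabilityMeasure P := hG.isProbabilityMeasure
  rw [hG.charFun_map_eq]
  have hin : (fun ω => inner ℝ ξ (bmVec τ B ω)) = (fun ω => ∑ k, ξ k * B (τ k) ω) := by
    funext ω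
    rw [PiLp.inner_apply]
    refine Finset.sum_congr rfl (fun k _ => ?_)
    simp [bmVec, mul_comm]
  rw [hin]
  have hint : ∀ k, Integrable (fun ω => ξ k * B (τ k) ω) P := fun k =>
    (hB.integrable_eval (τ k)).const_mul _
  have hmean : P[fun ω => ∑ k, ξ k * B (τ k) ω] = 0 := by
    rw [integral_finsetSum _ (fun k _ => hint k)]
    refine Finset.sum_eq_zero (fun k _ => ?_)
    rw [integral_const_mul, hB.integral_eval, mul_zero]
  have hL2 : ∀ k, MemLp (fun ω => ξ k * B (τ k) ω) 2 P := fun k =>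
    ((hB.isGaussianProcess.hasGaussianLaw_eval (τ k)).memLp_two).const_mul _
  have hvar : Var[fun ω => ∑ k, ξ k * B (τ k) ω; P] =
      ∑ k, ∑ l, ξ k * ξ l * min (τ k : ℝ) (τ l) := by
    rw [← covariance_self (by
      refine Finset.aemeasurable_fun_sum _ (fun k _ => (hint k).aemeasurable)),
      covariance_fun_sum_fun_sum hL2 hL2]
    refine Finset.sum_congr rfl (fun k _ => Finset.sum_congr rfl (fun l _ => ?_))
    rw [covariance_const_mul_left, covariance_const_mul_right, hB.covariance_fun_eval]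
    push_cast
    ring
  rw [hmean, hvar]
  push_cast
  ring_nf

/-! ### Rademacher sums -/

/-- law of a Rademacher variable -/
theorem map_rademacher {X : Ω → ℝ} [IsProbabilityMeasure P] (hX : AEMeasurable X P)
    (h1 : P {ω | X ω = 1} = 1 / 2) (h2 : P {ω | X ω = -1} = 1 / 2) :
    P.map X = (1 / 2 : ℝ≥0∞) • Measure.dirac (1 : ℝ) +
      (1 / 2 : ℝ≥0∞) • Measure.dirac (-1 : ℝ) := by
  have e1 : P.map X {(1 : ℝ)} = 1 / 2 := by
    rw [Measure.map_apply_of_aemeasurable hX (measurableSet_singleton _)]; exact h1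
  have e2 : P.map X {(-1 : ℝ)} = 1 / 2 := by
    rw [Measure.map_apply_of_aemeasurable hX (measurableSet_singleton _)]; exact h2
  have : IsProbabilityMeasure (P.map X) := Measure.isProbabilityMeasure_map hX
  have hdisj : Disjoint ({(1 : ℝ)} : Set ℝ) {(-1 : ℝ)} := by
    rw [Set.disjoint_singleton]; norm_num
  have e3 : P.map X ({(1 : ℝ)} ∪ {(-1 : ℝ)}) = 1 := by
    rw [measure_union hdisj (measurableSet_singleton _), e1, e2]
    exact ENNReal.add_halves 1
  have e4 : P.map X ({(1 : ℝ)} ∪ {(-1 : ℝ)})ᶜ = 0 :=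
    (prob_compl_eq_zero_iff ((measurableSet_singleton _).union (measurableSet_singleton _))).2 e3
  refine Measure.ext (fun s hs => ?_)
  have e5 : P.map X s = P.map X (s ∩ {(1 : ℝ)}) + P.map X (s ∩ {(-1 : ℝ)}) := by
    rw [← measure_union (hdisj.mono Set.inter_subset_right Set.inter_subset_right)
      (hs.inter (measurableSet_singleton _)), ← Set.inter_union_distrib_left]
    rw [← measure_inter_add_sdiff s ((measurableSet_singleton (1 : ℝ)).union
      (measurableSet_singleton (-1 : ℝ)))]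
    rw [measure_mono_null (Set.sdiff_subset_compl _ _) e4, add_zero]
  rw [e5]
  simp only [Measure.coe_add, Pi.add_apply, Measure.smul_apply, smul_eq_mul,
    Measure.dirac_apply' _ hs]
  congr 1
  · by_cases h : (1 : ℝ) ∈ s
    · rw [Set.inter_eq_right.2 (Set.singleton_subset_iff.2 h), e1]; simp [h]
    · rw [Set.inter_singleton_eq_empty.2 h]; simp [h]
  · by_cases h : (-1 : ℝ) ∈ s
    · rw [Set.inter_eq_right.2 (Set.singleton_subset_iff.2 h), e2]; simp [h]
    · rw [Set.inter_singleton_eq_empty.2 h]; simp [h]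

/-- law of a Rademacher variable through its characteristic function -/
theorem charFun_rademacher {X : Ω → ℝ} [IsProbabilityMeasure P] (hX : AEMeasurable X P)
    (h1 : P {ω | X ω = 1} = 1 / 2) (h2 : P {ω | X ω = -1} = 1 / 2) (a : ℝ) :
    charFun (P.map X) a = Real.cos a := by
  rw [map_rademacher hX h1 h2, charFun_apply_real]
  rw [integral_add_measure, integral_smul_measure, integral_smul_measure, integral_dirac,
    integral_dirac]
  · rw [Complex.ofReal_cos, Complex.cos]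
    simp
    ring
  · refine Integrable.smul_measure ?_ (by simp)
    exact integrable_dirac (by simp)
  · refine Integrable.smul_measure ?_ (by simp)
    exact integrable_dirac (by simp)

theorem integral_rademacher {X : Ω → ℝ} [IsProbabilityMeasure P] (hX : AEMeasurable X P)
    (h1 : P {ω | X ω = 1} = 1 / 2) (h2 : P {ω | X ω = -1} = 1 / 2) :
    P[X] = 0 := by
  have e : P[X] = ∫ x, x ∂(P.map X) := (integral_map hX aestronglyMeasurable_id).symm
  rw [e, map_rademacher hX h1 h2]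
  rw [integral_add_measure, integral_smul_measure, integral_smul_measure, integral_dirac,
    integral_dirac]
  · simp
  · refine Integrable.smul_measure ?_ (by simp)
    exact integrable_dirac (by simp)
  · refine Integrable.smul_measure ?_ (by simp)
    exact integrable_dirac (by simp)

theorem ae_rademacher {X : Ω → ℝ} [IsProbabilityMeasure P] (hX : AEMeasurable X P)
    (h1 : P {ω | X ω = 1} = 1 / 2) (h2 : P {ω | X ω = -1} = 1 / 2) :
    ∀ᵐ ω ∂P, X ω = 1 ∨ X ω = -1 := by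
  have h3 : ∀ᵐ x ∂(P.map X), x = 1 ∨ x = -1 := by
    rw [map_rademacher hX h1 h2, ae_iff]
    simp
  exact ae_of_ae_map hX h3

/-- characteristic function of a linear combination of independent signs -/
theorem charFun_sum_rademacher [IsProbabilityMeasure P] {X : ℕ → Ω → ℝ}
    (hX : ∀ i, AEMeasurable (X i) P) (hind : iIndepFun X P)
    (h1 : ∀ i, P {ω | X i ω = 1} = 1 / 2) (h2 : ∀ i, P {ω | X i ω = -1} = 1 / 2)
    (N : ℕ) (a : ℕ → ℝ) :
    charFun (P.map (fun ω => ∑ i ∈ Finset.range N, a i * X i ω)) 1 =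
      ((∏ i ∈ Finset.range N, Real.cos (a i) : ℝ) : ℂ) := by
  have hind' : iIndepFun (fun i ω => a i * X i ω) P :=
    hind.comp (fun i x => a i * x) (fun i => by fun_prop)
  rw [(hind'.restrict _).charFun_map_fun_finsetSum_eq_prod (fun i _ => (hX i).const_mul _)]
  rw [Finset.prod_apply, Complex.ofReal_prod]
  refine Finset.prod_congr rfl (fun i _ => ?_)
  rw [charFun_map_mul_comp (hX i), charFun_rademacher (hX i) (h1 i) (h2 i), mul_one]

/-! ### Products of cosines -/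

theorem abs_prod_sub_prod_le (N : ℕ) (a b : ℕ → ℝ) (ha : ∀ i < N, |a i| ≤ 1)
    (hb : ∀ i < N, |b i| ≤ 1) :
    |∏ i ∈ Finset.range N, a i - ∏ i ∈ Finset.range N, b i| ≤
      ∑ i ∈ Finset.range N, |a i - b i| := by
  induction N with
  | zero => simp
  | succ N ih =>
    have ih' := ih (fun i hi => ha i (by omega)) (fun i hi => hb i (by omega))
    rw [Finset.prod_range_succ, Finset.prod_range_succ, Finset.sum_range_succ]
    have e : (∏ i ∈ Finset.range N, a i) * a N - (∏ i ∈ Finset.range N, b i) * b N =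
        (∏ i ∈ Finset.range N, a i - ∏ i ∈ Finset.range N, b i) * a N +
        (∏ i ∈ Finset.range N, b i) * (a N - b N) := by ring
    rw [e]
    refine (abs_add_le _ _).trans (add_le_add ?_ ?_)
    · rw [abs_mul]
      calc _ ≤ |∏ i ∈ Finset.range N, a i - ∏ i ∈ Finset.range N, b i| * 1 :=
            mul_le_mul_of_nonneg_left (ha N (by omega)) (abs_nonneg _)
        _ ≤ _ := by rw [mul_one]; exact ih'
    · rw [abs_mul, Finset.abs_prod]
      calc _ ≤ 1 * |a N - b N| := by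
            refine mul_le_mul_of_nonneg_right ?_ (abs_nonneg _)
            refine Finset.prod_le_one (fun i _ => abs_nonneg _) (fun i hi => ?_)
            exact hb i (by rw [Finset.mem_range] at hi; omega)
        _ = _ := one_mul _

theorem abs_cos_sub_exp_le {x : ℝ} (hx : |x| ≤ 1) :
    |Real.cos x - Real.exp (-(x ^ 2 / 2))| ≤ x ^ 4 := by
  have h1 := Real.cos_bound hx
  have hx2 : x ^ 2 ≤ 1 := by rw [← sq_abs]; exact pow_le_one₀ (abs_nonneg _) hx
  have hy : |-(x ^ 2 / 2)| ≤ 1 := by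
    rw [abs_neg, abs_of_nonneg (by positivity)]; linarith
  have h2 := Real.abs_exp_sub_one_sub_id_le hy
  have h4 : |x| ^ 4 = x ^ 4 := Even.pow_abs (by decide) _
  rw [h4] at h1
  rw [abs_le] at h1 h2 ⊢
  have h0 : 0 ≤ x ^ 4 := by positivity
  constructor <;> nlinarith [h1.1, h1.2, h2.1, h2.2]

theorem tendsto_prod_cos {a : ℕ → ℕ → ℝ} {A v : ℝ}
    (ha : ∀ N i, |a N i| ≤ (√N)⁻¹ * A)
    (hv : Tendsto (fun N => ∑ i ∈ Finset.range N, (a N i) ^ 2) atTop (𝓝 v)) :
    Tendsto (fun N => ∏ i ∈ Finset.range N, Real.cos (a N i)) atTop (𝓝 (Real.exp (-(v / 2)))) := by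
  have h1 : Tendsto (fun N => ∏ i ∈ Finset.range N, Real.exp (-((a N i) ^ 2 / 2))) atTop
      (𝓝 (Real.exp (-(v / 2)))) := by
    have e : (fun N => ∏ i ∈ Finset.range N, Real.exp (-((a N i) ^ 2 / 2))) =
        (fun N => Real.exp (-((∑ i ∈ Finset.range N, (a N i) ^ 2) / 2))) := by
      funext N
      rw [← Real.exp_sum, Finset.sum_neg_distrib, Finset.sum_div]
    rw [e]
    exact (Real.continuous_exp.tendsto _).comp ((hv.div_const 2).neg)
  have h2 : Tendsto (fun N => ∏ i ∈ Finset.range N, Real.cos (a N i) -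
      ∏ i ∈ Finset.range N, Real.exp (-((a N i) ^ 2 / 2))) atTop (𝓝 0) := by
    have hlim : Tendsto (fun N : ℕ => (N : ℝ)⁻¹ * A ^ 4) atTop (𝓝 0) := by
      rw [show (0 : ℝ) = 0 * A ^ 4 by ring]
      exact (tendsto_inv_atTop_zero.comp tendsto_natCast_atTop_atTop).mul_const _
    refine squeeze_zero_norm' ?_ hlim
    obtain ⟨N0, hN0⟩ := exists_nat_gt (A ^ 2)
    filter_upwards [eventually_ge_atTop (max N0 1)] with N hN
    have hN1 : 1 ≤ N := le_trans (le_max_right _ _) hN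
    have hNN : N0 ≤ N := le_trans (le_max_left _ _) hN
    have hNpos : (0 : ℝ) < N := by exact_mod_cast hN1
    have hNA : A ^ 2 ≤ N := hN0.le.trans (by exact_mod_cast hNN)
    have hsq : (√(N : ℝ))⁻¹ * A ≤ 1 := by
      have h3 : A ≤ √(N : ℝ) := Real.le_sqrt_of_sq_le hNA
      have h4 : 0 < √(N : ℝ) := Real.sqrt_pos.2 hNpos
      rw [inv_mul_le_iff₀ h4, mul_one]
      exact h3
    rw [Real.norm_eq_abs]
    refine (abs_prod_sub_prod_le N _ _ (fun i _ => Real.abs_cos_le_one _) (fun i _ => ?_)).trans ?_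
    · rw [abs_of_pos (Real.exp_pos _), Real.exp_le_one_iff]
      have : 0 ≤ (a N i) ^ 2 := sq_nonneg _
      linarith
    · have hterm : ∀ i ∈ Finset.range N, |Real.cos (a N i) - Real.exp (-((a N i) ^ 2 / 2))| ≤
          ((√(N : ℝ))⁻¹ * A) ^ 4 := by
        intro i _
        refine (abs_cos_sub_exp_le ((ha N i).trans hsq)).trans ?_
        rw [← Even.pow_abs (by decide : Even 4)]
        exact pow_le_pow_left₀ (abs_nonneg _) (ha N i) 4
      refine (Finset.sum_le_sum hterm).trans ?_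
      rw [Finset.sum_const, Finset.card_range, nsmul_eq_mul]
      have h5 : (√(N : ℝ)) ^ 2 = N := Real.sq_sqrt hNpos.le
      have h6 : ((√(N : ℝ))⁻¹ * A) ^ 4 = ((N : ℝ) ^ 2)⁻¹ * A ^ 4 := by
        rw [mul_pow, inv_pow, show (√(N : ℝ)) ^ 4 = ((√(N : ℝ)) ^ 2) ^ 2 by ring, h5]
      rw [h6]
      apply le_of_eq
      field_simp
  have h3 := h2.add h1
  simpa using h3

/-! ### The rescaled walk path -/

/-- the rescaled polygonal path of the walk with steps `X` -/
noncomputable def wpath (X : ℕ → Ω → ℝ) (N : ℕ) (ω : Ω) : C(UI, ℝ) :=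
  polyLine N (fun k => (√(N : ℝ))⁻¹ * ∑ i ∈ Finset.range k, X i ω)

omit [MeasurableSpace Ω] in
theorem wpath_apply (X : ℕ → Ω → ℝ) (N : ℕ) (ω : Ω) (t : UI) :
    wpath X N ω t = ∑ i ∈ Finset.range N,
      ((√(N : ℝ))⁻¹ * ramp ((N : ℝ) * (t : ℝ) - (i : ℝ))) * X i ω := by
  unfold wpath
  rw [polyLine_apply]
  simp only [Finset.range_zero, Finset.sum_empty, mul_zero, zero_add]
  refine Finset.sum_congr rfl (fun i _ => ?_)
  rw [Finset.sum_range_succ]
  ring

/-- the walk path sampled at finitely many times -/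
noncomputable def wVec {m : ℕ} (τ : Fin m → UI) (X : ℕ → Ω → ℝ) (N : ℕ) (ω : Ω) :
    EuclideanSpace ℝ (Fin m) := WithLp.toLp 2 (fun k => wpath X N ω (τ k))

/-- coefficients -/
noncomputable def acoef {m : ℕ} (τ : Fin m → UI) (ξ : EuclideanSpace ℝ (Fin m)) (N i : ℕ) : ℝ :=
  ∑ k, ξ k * ((√(N : ℝ))⁻¹ * ramp ((N : ℝ) * (τ k : ℝ) - (i : ℝ)))

theorem abs_acoef_le {m : ℕ} (τ : Fin m → UI) (ξ : EuclideanSpace ℝ (Fin m)) (N i : ℕ) :
    |acoef τ ξ N i| ≤ (√(N : ℝ))⁻¹ * ∑ k, |ξ k| := by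
  unfold acoef
  refine (Finset.abs_sum_le_sum_abs _ _).trans ?_
  rw [Finset.mul_sum]
  refine Finset.sum_le_sum (fun k _ => ?_)
  have h0 : (0 : ℝ) ≤ (√(N : ℝ))⁻¹ := by positivity
  rw [abs_mul, abs_mul, abs_of_nonneg h0, abs_of_nonneg (ramp_nonneg _)]
  have h1 := ramp_le_one ((N : ℝ) * (τ k : ℝ) - (i : ℝ))
  have h2 : |ξ k| * ((√(N : ℝ))⁻¹ * ramp ((N : ℝ) * (τ k : ℝ) - (i : ℝ))) ≤
      |ξ k| * ((√(N : ℝ))⁻¹ * 1) :=
    mul_le_mul_of_nonneg_left (mul_le_mul_of_nonneg_left h1 h0) (abs_nonneg _)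
  linarith

theorem tendsto_sum_acoef_sq {m : ℕ} (τ : Fin m → UI) (ξ : EuclideanSpace ℝ (Fin m)) :
    Tendsto (fun N => ∑ i ∈ Finset.range N, (acoef τ ξ N i) ^ 2) atTop
      (𝓝 (∑ k, ∑ l, ξ k * ξ l * min (τ k : ℝ) (τ l))) := by
  have hpt : ∀ k l, Tendsto (fun N : ℕ => (N : ℝ)⁻¹ * ∑ i ∈ Finset.range N,
      ramp ((N : ℝ) * (τ k : ℝ) - (i : ℝ)) * ramp ((N : ℝ) * (τ l : ℝ) - (i : ℝ))) atTop
      (𝓝 (min (τ k : ℝ) (τ l))) := by
    intro k l
    rw [tendsto_iff_norm_sub_tendsto_zero]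
    refine squeeze_zero' (Filter.Eventually.of_forall (fun _ => norm_nonneg _)) ?_
      (tendsto_inv_atTop_zero.comp (tendsto_natCast_atTop_atTop (R := ℝ)))
    filter_upwards [eventually_ge_atTop 1] with N hN
    have hNpos : (0 : ℝ) < N := by exact_mod_cast hN
    have hk0 := (τ k).2.1
    have hk1 := (τ k).2.2
    have hl0 := (τ l).2.1
    have hl1 := (τ l).2.2
    have hb := abs_sum_ramp_mul_ramp_sub_min_le N (a := N * (τ k : ℝ)) (b := N * (τ l : ℝ))
      (by positivity) (by positivity) (by nlinarith) (by nlinarith)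
    rw [← mul_min_of_nonneg _ _ hNpos.le] at hb
    rw [Real.norm_eq_abs]
    have e : (N : ℝ)⁻¹ * (∑ i ∈ Finset.range N, ramp ((N : ℝ) * (τ k : ℝ) - (i : ℝ)) *
        ramp ((N : ℝ) * (τ l : ℝ) - (i : ℝ))) - min (τ k : ℝ) (τ l) =
        (N : ℝ)⁻¹ * ((∑ i ∈ Finset.range N, ramp ((N : ℝ) * (τ k : ℝ) - (i : ℝ)) *
        ramp ((N : ℝ) * (τ l : ℝ) - (i : ℝ))) - N * min (τ k : ℝ) (τ l)) := by
      field_simp
    rw [e, abs_mul, abs_of_pos (inv_pos.2 hNpos)]
    calc _ ≤ (N : ℝ)⁻¹ * 1 := mul_le_mul_of_nonneg_left hb (by positivity)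
      _ = _ := by simp
  have hsum : Tendsto (fun N : ℕ => ∑ k, ∑ l, ξ k * ξ l * ((N : ℝ)⁻¹ * ∑ i ∈ Finset.range N,
      ramp ((N : ℝ) * (τ k : ℝ) - (i : ℝ)) * ramp ((N : ℝ) * (τ l : ℝ) - (i : ℝ)))) atTop
      (𝓝 (∑ k, ∑ l, ξ k * ξ l * min (τ k : ℝ) (τ l))) :=
    tendsto_finsetSum _ (fun k _ => tendsto_finsetSum _ (fun l _ => (hpt k l).const_mul _))
  refine hsum.congr (fun N => ?_)
  have hN : ((√(N : ℝ))⁻¹) ^ 2 = (N : ℝ)⁻¹ := by
    rw [inv_pow, Real.sq_sqrt (Nat.cast_nonneg _)]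
  symm
  calc ∑ i ∈ Finset.range N, (acoef τ ξ N i) ^ 2
      = ∑ i ∈ Finset.range N, ∑ k, ∑ l, ξ k * ξ l * ((N : ℝ)⁻¹ *
        (ramp ((N : ℝ) * (τ k : ℝ) - (i : ℝ)) * ramp ((N : ℝ) * (τ l : ℝ) - (i : ℝ)))) := by
        refine Finset.sum_congr rfl (fun i _ => ?_)
        unfold acoef
        rw [sq, Finset.sum_mul_sum]
        refine Finset.sum_congr rfl (fun k _ => Finset.sum_congr rfl (fun l _ => ?_))
        rw [← hN]
        ring
    _ = ∑ k, ∑ l, ξ k * ξ l * ((N : ℝ)⁻¹ * ∑ i ∈ Finset.range N,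
      ramp ((N : ℝ) * (τ k : ℝ) - (i : ℝ)) * ramp ((N : ℝ) * (τ l : ℝ) - (i : ℝ))) := by
        rw [Finset.sum_comm]
        refine Finset.sum_congr rfl (fun k _ => ?_)
        rw [Finset.sum_comm]
        refine Finset.sum_congr rfl (fun l _ => ?_)
        rw [Finset.mul_sum, Finset.mul_sum]

omit [MeasurableSpace Ω] in
theorem inner_wVec {m : ℕ} (τ : Fin m → UI) (X : ℕ → Ω → ℝ) (N : ℕ) (ω : Ω)
    (ξ : EuclideanSpace ℝ (Fin m)) :
    inner ℝ (wVec τ X N ω) ξ = ∑ i ∈ Finset.range N, acoef τ ξ N i * X i ω := by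
  rw [PiLp.inner_apply]
  have h1 : ∀ k, inner ℝ ((wVec τ X N ω) k) (ξ k) = ∑ i ∈ Finset.range N,
      (ξ k * ((√(N : ℝ))⁻¹ * ramp ((N : ℝ) * (τ k : ℝ) - (i : ℝ)))) * X i ω := by
    intro k
    have e : (wVec τ X N ω) k = wpath X N ω (τ k) := rfl
    rw [e, wpath_apply, real_inner_eq_re_inner]
    simp only [RCLike.inner_apply, conj_trivial, RCLike.re_to_real]
    rw [Finset.mul_sum]
    refine Finset.sum_congr rfl (fun i _ => by ring)
  rw [Finset.sum_congr rfl (fun k _ => h1 k), Finset.sum_comm]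
  refine Finset.sum_congr rfl (fun i _ => ?_)
  unfold acoef
  rw [Finset.sum_mul]

theorem charFun_map_eq_inner {E : Type*} [NormedAddCommGroup E] [InnerProductSpace ℝ E]
    [MeasurableSpace E] [BorelSpace E] [SecondCountableTopology E] {V : Ω → E}
    (hV : AEMeasurable V P) (ξ : E) :
    charFun (P.map V) ξ = charFun (P.map (fun ω => inner ℝ (V ω) ξ)) 1 := by
  rw [charFun_apply, charFun_apply_real, integral_map hV (by fun_prop),
    integral_map (by fun_prop) (by fun_prop)]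
  simp

theorem aemeasurable_wpath_apply {X : ℕ → Ω → ℝ} (hX : ∀ i, AEMeasurable (X i) P)
    (N : ℕ) (t : UI) : AEMeasurable (fun ω => wpath X N ω t) P := by
  simp_rw [wpath_apply]
  exact Finset.aemeasurable_fun_sum _ (fun i _ => (hX i).const_mul _)

theorem aemeasurable_wVec {X : ℕ → Ω → ℝ} (hX : ∀ i, AEMeasurable (X i) P) {m : ℕ}
    (τ : Fin m → UI) (N : ℕ) : AEMeasurable (wVec τ X N) P := by
  have h1 : AEMeasurable (fun ω => (fun k => wpath X N ω (τ k) : Fin m → ℝ)) P := by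
    exact aemeasurable_pi_lambda _ (fun k => aemeasurable_wpath_apply hX N (τ k))
  exact (WithLp.measurable_toLp 2 _).comp_aemeasurable h1

/-- **Convergence of finite-dimensional distributions** of the rescaled walk to those of
Brownian motion. -/
theorem fdd_tendsto {Ω' : Type*} [MeasurableSpace Ω'] {P' : Measure Ω'}
    [IsProbabilityMeasure P] [IsProbabilityMeasure P'] (hB : IsPreBrownianReal B P)
    {X : ℕ → Ω' → ℝ} (hX : ∀ i, AEMeasurable (X i) P') (hind : iIndepFun X P')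
    (h1 : ∀ i, P' {ω | X i ω = 1} = 1 / 2) (h2 : ∀ i, P' {ω | X i ω = -1} = 1 / 2)
    {m : ℕ} (τ : Fin m → UI) (σ : Fin m → ℝ≥0) (hσ : ∀ k, (σ k : ℝ) = τ k) :
    TendstoInDistribution (wVec τ X) atTop (bmVec σ B) (fun _ => P') P where
  forall_aemeasurable := fun N => aemeasurable_wVec hX τ N
  aemeasurable_limit := (hasGaussianLaw_bmVec hB σ).aemeasurable
  tendsto := by
    refine ProbabilityMeasure.tendsto_iff_tendsto_charFun.2 (fun ξ => ?_)
    show Tendsto (fun N => charFun (P'.map (wVec τ X N)) ξ) atTop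
      (𝓝 (charFun (P.map (bmVec σ B)) ξ))
    rw [charFun_bmVec hB σ ξ]
    have e : ∀ N, charFun (P'.map (wVec τ X N)) ξ =
        ((∏ i ∈ Finset.range N, Real.cos (acoef τ ξ N i) : ℝ) : ℂ) := by
      intro N
      rw [charFun_map_eq_inner (aemeasurable_wVec hX τ N)]
      simp_rw [inner_wVec]
      exact charFun_sum_rademacher hX hind h1 h2 N _
    simp_rw [e]
    have hlim := tendsto_prod_cos (abs_acoef_le τ ξ) (tendsto_sum_acoef_sq τ ξ)
    have hlim2 := (Complex.continuous_ofReal.tendsto _).comp hlim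
    have elim : Complex.exp (-(((∑ k, ∑ l, ξ k * ξ l * min (σ k : ℝ) (σ l)) : ℝ) : ℂ) / 2) =
        ((Real.exp (-((∑ k, ∑ l, ξ k * ξ l * min (τ k : ℝ) (τ l)) / 2)) : ℝ) : ℂ) := by
      simp_rw [hσ]
      push_cast
      ring_nf
    rw [elim]
    exact hlim2

end Span52e894
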