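import Pool.Agent.Work.MP_52e894_pr.Donsker

/-!
# Scaling limit of the span set of the simple random walk
-/

open MeasureTheory ProbabilityTheory Filter TopologicalSpace Set
open scoped NNReal ENNReal Topology

namespace Span52e894

theorem walkSpanSet_congr (N : ℕ) {S S' : ℕ → ℤ} (h : ∀ k ≤ N, S k = S' k) :
    walkSpanSet N S = walkSpanSet N S' := by
  ext u
  constructor
  · rintro ⟨l, k, hlk, hkN, hS, hu⟩
    exact ⟨l, k, hlk, hkN, by rw [← h l (hlk.trans hkN), ← h k hkN, hS], hu⟩
  · rintro ⟨l, k, hlk, hkN, hS, hu⟩
    exact ⟨l, k, hlk, hkN, by rw [h l (hlk.trans hkN), h k hkN, hS], hu⟩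

theorem walkSpan_congr (N : ℕ) {S S' : ℕ → ℤ} (h : ∀ k ≤ N, S k = S' k) :
    walkSpan N S = walkSpan N S' := by
  refine SetLike.coe_injective ?_
  rw [coe_walkSpan, coe_walkSpan, walkSpanSet_congr N h]

variable {Ω Ω' : Type*} [MeasurableSpace Ω] [MeasurableSpace Ω'] {P : Measure Ω}
  {P' : Measure Ω'} {B : ℝ≥0 → Ω → ℝ}

theorem measurable_walkSpan (N : ℕ) {X : ℕ → Ω' → ℤ} (hX : ∀ i, Measurable (X i)) :
    Measurable (fun ω => walkSpan N (fun k => ∑ i ∈ Finset.range k, X i ω)) := by
  let g : (Fin (N + 1) → ℤ) → KK := fun v => walkSpan N (fun k => if h : k < N + 1 then v ⟨k, h⟩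
    else 0)
  have hg : Measurable g := Measurable.of_discrete
  have hv : Measurable (fun ω => (fun k => ∑ i ∈ Finset.range k, X i ω : Fin (N + 1) → ℤ)) :=
    measurable_pi_lambda _ (fun k => Finset.measurable_fun_sum _ (fun i _ => hX i))
  have e : (fun ω => walkSpan N (fun k => ∑ i ∈ Finset.range k, X i ω)) =
      fun ω => g (fun k => ∑ i ∈ Finset.range k, X i ω) := by
    funext ω
    refine walkSpan_congr N (fun k hk => ?_)
    rw [dif_pos (Nat.lt_succ_iff.2 hk)]
  rw [e]
  exact hg.comp hv

theorem aemeasurable_pathSpan (hB : IsBrownianReal B P) :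
    AEMeasurable (fun ω => pathSpan (fun t => B t ω)) P := by
  refine (measurable_spC.comp_aemeasurable (aemeasurable_pathC hB)).congr ?_
  filter_upwards [hB.cont] with ω hω
  exact spC_pathC hω

/-- the rescaled span sets of the simple random walk converge in distribution to the span set of
Brownian motion. -/
theorem span_tendsto [IsProbabilityMeasure P] [IsProbabilityMeasure P']
    (hB : IsBrownianReal B P) {X : ℕ → Ω' → ℤ} (hX : ∀ i, Measurable (X i))
    (hind : iIndepFun X P') (h1 : ∀ i, P' {ω | X i ω = 1} = 1 / 2)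
    (h2 : ∀ i, P' {ω | X i ω = -1} = 1 / 2) :
    TendstoInDistribution (fun N ω => walkSpan N (fun k => ∑ i ∈ Finset.range k, X i ω)) atTop
      (fun ω => pathSpan (fun t => B t ω)) (fun _ => P') P where
  forall_aemeasurable := fun N => (measurable_walkSpan N hX).aemeasurable
  aemeasurable_limit := aemeasurable_pathSpan hB
  tendsto := by
    -- real valued steps
    let Y : ℕ → Ω' → ℝ := fun i ω => (X i ω : ℝ)
    have hYm : ∀ i, AEMeasurable (Y i) P' := fun i =>
      ((measurable_from_top (f := fun z : ℤ => (z : ℝ))).comp (hX i)).aemeasurable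
    have hYind : iIndepFun Y P' :=
      hind.comp (fun _ z => (z : ℝ)) (fun _ => measurable_from_top)
    have hY1 : ∀ i, P' {ω | Y i ω = 1} = 1 / 2 := by
      intro i
      rw [← h1 i]
      congr 1
      ext ω
      simp only [Set.mem_ofPred_eq, Y]
      exact_mod_cast Iff.rfl
    have hY2 : ∀ i, P' {ω | Y i ω = -1} = 1 / 2 := by
      intro i
      rw [← h2 i]
      congr 1
      ext ω
      simp only [Set.mem_ofPred_eq, Y]
      exact_mod_cast Iff.rfl
    have hD := donsker hB hYm hYind hY1 hY2
    have hsteps : ∀ᵐ ω ∂P', ∀ i, X i ω = 1 ∨ X i ω = -1 := by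
      rw [ae_all_iff]
      intro i
      filter_upwards [ae_rademacher (hYm i) (hY1 i) (hY2 i)] with ω hω
      have hω' : (X i ω : ℝ) = 1 ∨ (X i ω : ℝ) = -1 := hω
      rcases hω' with h | h
      · left; exact_mod_cast h
      · right; exact_mod_cast h
    refine tendsto_of_forall_isClosed_limsup_le' (fun F hF => ?_)
    show limsup (fun N => (P'.map (fun ω => walkSpan N (fun k => ∑ i ∈ Finset.range k, X i ω))) F)
      atTop ≤ (P.map (fun ω => pathSpan (fun t => B t ω))) F
    have hνp : IsProbabilityMeasure (P.map (fun ω => pathSpan (fun t => B t ω))) :=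
      Measure.isProbabilityMeasure_map (aemeasurable_pathSpan hB)
    have hlim : Tendsto (fun r => (P.map (fun ω => pathSpan (fun t => B t ω)))
        (Metric.cthickening r F)) (𝓝[>] 0) (𝓝 ((P.map (fun ω => pathSpan (fun t => B t ω))) F)) :=
      (tendsto_measure_cthickening_of_isClosed ⟨1, one_pos, measure_ne_top _ _⟩ hF).mono_left
        nhdsWithin_le_nhds
    refine ge_of_tendsto hlim ?_
    filter_upwards [self_mem_nhdsWithin] with δ hδ
    have hδ0 : 0 < δ := hδ
    -- the closed set of paths
    set A : Set C(UI, ℝ) := spC ⁻¹' (Metric.cthickening δ F) with hA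
    have hstep1 : ∀ᶠ N : ℕ in atTop,
        (P'.map (fun ω => walkSpan N (fun k => ∑ i ∈ Finset.range k, X i ω))) F ≤
        (P'.map (fun ω => wpath Y N ω)) (closure A) := by
      obtain ⟨N0, hN0⟩ := exists_nat_gt (2 / δ)
      filter_upwards [eventually_ge_atTop (max N0 1)] with N hN
      have hN1 : 0 < N := lt_of_lt_of_le one_pos ((le_max_right _ _).trans hN)
      have hNr : (0 : ℝ) < N := by exact_mod_cast hN1
      have hNN : 2 / δ < N :=
        hN0.trans_le (by exact_mod_cast (le_max_left N0 1).trans hN)
      have h2N : 2 / (N : ℝ) ≤ δ := by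
        rw [div_lt_iff₀ hδ0] at hNN
        rw [div_le_iff₀ hNr]
        linarith
      rw [Measure.map_apply (measurable_walkSpan N hX) hF.measurableSet,
        Measure.map_apply_of_aemeasurable (aemeasurable_wpath hYm N) isClosed_closure.measurableSet]
      refine measure_mono_ae ?_
      filter_upwards [hsteps] with ω hω hmem
      refine subset_closure ?_
      show spC (wpath Y N ω) ∈ Metric.cthickening δ F
      refine Metric.mem_cthickening_of_dist_le _ _ _ _ hmem ?_
      have hc : (0 : ℝ) < (√(N : ℝ))⁻¹ := inv_pos.2 (Real.sqrt_pos.2 hNr)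
      have hd := dist_walkSpan_le N hN1 (fun k => ∑ i ∈ Finset.range k, X i ω) (fun k => by
        rw [Finset.sum_range_succ]
        rcases hω k with h | h
        · left; rw [h]
        · right; rw [h]; ring) _ hc
      rw [dist_comm] at hd
      have e : wpath Y N ω = polyLine N (fun k => (√(N : ℝ))⁻¹ *
          ((∑ i ∈ Finset.range k, X i ω : ℤ) : ℝ)) := by
        unfold wpath
        congr 1
        funext k
        push_cast
        rfl
      rw [e]
      exact hd.trans h2N
    refine (limsup_le_limsup hstep1).trans ?_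
    have hport := ProbabilityMeasure.limsup_measure_closed_le_of_tendsto hD.tendsto
      (F := closure A) isClosed_closure
    refine le_trans hport ?_
    show (P.map (fun ω => pathC (fun t => B t ω))) (closure A) ≤
      (P.map (fun ω => pathSpan (fun t => B t ω))) (Metric.cthickening δ F)
    rw [Measure.map_apply_of_aemeasurable (aemeasurable_pathC hB) isClosed_closure.measurableSet,
      Measure.map_apply_of_aemeasurable (aemeasurable_pathSpan hB)
        Metric.isClosed_cthickening.measurableSet]
    refine measure_mono_ae ?_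
    filter_upwards [ae_good hB, hB.cont] with ω hgood hcont hmem
    have hcl : pathC (fun t => B t ω) ∈ closure A := hmem
    have hmap : spC (pathC (fun t => B t ω)) ∈ closure (spC '' A) :=
      mem_closure_image (continuousAt_spC hgood) hcl
    have hsub : closure (spC '' A) ⊆ Metric.cthickening δ F :=
      closure_minimal (Set.image_preimage_subset _ _) Metric.isClosed_cthickening
    have hfin := hsub hmap
    rw [spC_pathC hcont] at hfin
    exact hfin

end Span52e894
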