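import Pool.Agent.Work.MP_52e894_pr.Determ

/-!
# Measurability of the span map
-/

open MeasureTheory ProbabilityTheory Filter TopologicalSpace Set
open scoped NNReal ENNReal Topology

namespace Span52e894

/-- Borel sigma-algebra on the space of continuous paths -/
instance instMeasurableSpacePath : MeasurableSpace C(UI, ℝ) := borel _

instance instBorelSpacePath : BorelSpace C(UI, ℝ) := ⟨rfl⟩

theorem isOpen_spSet_subset {U : Set UI} (hU : IsOpen U) :
    IsOpen {w : C(UI, ℝ) | spSet w ⊆ U} := by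
  rw [isOpen_iff_mem_nhds]
  intro w hw
  obtain ⟨ε, hε, hsub⟩ := (isClosed_spSet w).isCompact.exists_thickening_subset_open hU hw
  filter_upwards [upper_part w hε] with w' hw' u hu
  obtain ⟨v, hv, hd⟩ := hw' u hu
  exact hsub (Metric.mem_thickening_iff.2 ⟨v, hv, hd⟩)

theorem measurableSet_spSet_inter {U : Set UI} (hU : IsOpen U) :
    MeasurableSet {w : C(UI, ℝ) | (spSet w ∩ U).Nonempty} := by
  obtain ⟨F, hFc, -, hFU, -⟩ := hU.exists_iUnion_isClosed
  have e : {w : C(UI, ℝ) | (spSet w ∩ U).Nonempty} =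
      ⋃ n, {w : C(UI, ℝ) | spSet w ⊆ (F n)ᶜ}ᶜ := by
    ext w
    simp only [Set.mem_ofPred_eq, Set.mem_iUnion, Set.mem_compl_iff]
    constructor
    · rintro ⟨u, hu1, hu2⟩
      rw [← hFU] at hu2
      obtain ⟨n, hn⟩ := Set.mem_iUnion.1 hu2
      exact ⟨n, fun hcon => hcon hu1 hn⟩
    · rintro ⟨n, hn⟩
      rw [Set.not_subset] at hn
      obtain ⟨u, hu1, hu2⟩ := hn
      rw [Set.mem_compl_iff, not_not] at hu2
      exact ⟨u, hu1, by rw [← hFU]; exact Set.mem_iUnion.2 ⟨n, hu2⟩⟩
  rw [e]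
  exact MeasurableSet.iUnion (fun n =>
    (isOpen_spSet_subset (hFc n).isOpen_compl).measurableSet.compl)

theorem measurable_spC : Measurable spC := by
  have hb : borel KK = MeasurableSpace.generateFrom _ :=
    (NonemptyCompacts.isTopologicalBasis (α := UI)).borel_eq_generateFrom
  have : (instMeasurableSpaceKK : MeasurableSpace KK) = borel KK := rfl
  rw [this, hb]
  refine measurable_generateFrom ?_
  rintro t ⟨u, ⟨hfin, -, hop⟩, rfl⟩
  have e : spC ⁻¹' {K : KK | (K : Set UI) ⊆ ⋃₀ u ∧ ∀ U ∈ u, ((K : Set UI) ∩ U).Nonempty} =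
      {w | spSet w ⊆ ⋃₀ u} ∩ ⋂ U ∈ u, {w | (spSet w ∩ U).Nonempty} := by
    ext w
    simp only [Set.mem_preimage, Set.mem_ofPred_eq, Set.mem_inter_iff, Set.mem_iInter, coe_spC]
  rw [e]
  refine (isOpen_spSet_subset (isOpen_sUnion hop)).measurableSet.inter ?_
  exact MeasurableSet.biInter hfin.countable (fun U hU => measurableSet_spSet_inter (hop U hU))

end Span52e894
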