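import Pool.Agent.Work.MP_52e894_pr.FDD

/-!
# Fourth moments of dyadic increments and the uniform approximation bound
-/

open MeasureTheory ProbabilityTheory Filter TopologicalSpace Set
open scoped NNReal ENNReal Topology

namespace Span52e894

theorem pow_four_le_exp (x : ℝ) : x ^ 4 ≤ 24 * (Real.exp x + Real.exp (-x)) := by
  have key : ∀ y : ℝ, 0 ≤ y → y ^ 4 ≤ 24 * Real.exp y := by
    intro y hy
    have h := Real.sum_le_exp_of_nonneg hy 5
    simp only [Finset.sum_range_succ, Finset.sum_range_zero, Nat.factorial] at h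
    norm_num at h
    have : 0 ≤ y ^ 3 := by positivity
    have : 0 ≤ y ^ 2 := by positivity
    linarith
  rcases le_total 0 x with h | h
  · have := key x h
    have := Real.exp_pos (-x)
    linarith
  · have h2 := key (-x) (by linarith)
    have h3 : (-x) ^ 4 = x ^ 4 := by ring
    rw [h3] at h2
    have := Real.exp_pos x
    linarith

variable {Ω : Type*} [MeasurableSpace Ω] {P : Measure Ω}

theorem subG_mono {Y : Ω → ℝ} {c c' : ℝ≥0} (h : HasSubgaussianMGF Y c P) (hc : c ≤ c') :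
    HasSubgaussianMGF Y c' P where
  integrable_exp_mul := h.integrable_exp_mul
  mgf_le t := by
    refine (h.mgf_le t).trans ?_
    rw [Real.exp_le_exp]
    have : (c : ℝ) ≤ c' := by exact_mod_cast hc
    nlinarith [sq_nonneg t]

theorem lintegral_pow_four_le {Y : Ω → ℝ} {c : ℝ≥0} (hc : 0 < c) (hY : HasSubgaussianMGF Y c P) :
    ∫⁻ ω, ENNReal.ofReal ((Y ω) ^ 4) ∂P ≤ ENNReal.ofReal (144 * (c : ℝ) ^ 2) := by
  have hc' : (0 : ℝ) < c := by exact_mod_cast hc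
  set l : ℝ := (√(c : ℝ))⁻¹ with hl
  have hsc : 0 < √(c : ℝ) := Real.sqrt_pos.2 hc'
  have hl2 : (c : ℝ) * l ^ 2 = 1 := by
    rw [hl, inv_pow, Real.sq_sqrt hc'.le]; field_simp
  have hl4 : (c : ℝ) ^ 2 * l ^ 4 = 1 := by
    have : (c : ℝ) ^ 2 * l ^ 4 = ((c : ℝ) * l ^ 2) ^ 2 := by ring
    rw [this, hl2]; norm_num
  have hpt : ∀ ω, (Y ω) ^ 4 ≤ 24 * (c : ℝ) ^ 2 *
      (Real.exp (l * Y ω) + Real.exp (-l * Y ω)) := by
    intro ω
    have h := pow_four_le_exp (l * Y ω)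
    have e : (Y ω) ^ 4 = (c : ℝ) ^ 2 * (l * Y ω) ^ 4 := by
      calc (Y ω) ^ 4 = ((c : ℝ) ^ 2 * l ^ 4) * (Y ω) ^ 4 := by rw [hl4, one_mul]
        _ = _ := by ring
    rw [e]
    have := mul_le_mul_of_nonneg_left h (show (0 : ℝ) ≤ (c : ℝ) ^ 2 by positivity)
    rw [neg_mul]
    linarith
  have hint : Integrable (fun ω => 24 * (c : ℝ) ^ 2 *
      (Real.exp (l * Y ω) + Real.exp (-l * Y ω))) P :=
    ((hY.integrable_exp_mul l).add (hY.integrable_exp_mul (-l))).const_mul _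
  calc ∫⁻ ω, ENNReal.ofReal ((Y ω) ^ 4) ∂P
      ≤ ∫⁻ ω, ENNReal.ofReal (24 * (c : ℝ) ^ 2 *
        (Real.exp (l * Y ω) + Real.exp (-l * Y ω))) ∂P :=
        lintegral_mono (fun ω => ENNReal.ofReal_le_ofReal (hpt ω))
    _ = ENNReal.ofReal (∫ ω, 24 * (c : ℝ) ^ 2 *
        (Real.exp (l * Y ω) + Real.exp (-l * Y ω)) ∂P) := by
        rw [ofReal_integral_eq_lintegral_ofReal hint]
        exact Filter.Eventually.of_forall (fun ω => by positivity)
    _ ≤ ENNReal.ofReal (144 * (c : ℝ) ^ 2) := by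
        refine ENNReal.ofReal_le_ofReal ?_
        rw [integral_const_mul, integral_add (hY.integrable_exp_mul l)
          (hY.integrable_exp_mul (-l))]
        have m1 : ∫ ω, Real.exp (l * Y ω) ∂P ≤ Real.exp (c * l ^ 2 / 2) := hY.mgf_le l
        have m2 : ∫ ω, Real.exp (-l * Y ω) ∂P ≤ Real.exp (c * (-l) ^ 2 / 2) := hY.mgf_le (-l)
        have e2 : (c : ℝ) * (-l) ^ 2 / 2 = 1 / 2 := by rw [neg_sq, hl2]
        have e1 : (c : ℝ) * l ^ 2 / 2 = 1 / 2 := by rw [hl2]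
        rw [e1] at m1
        rw [e2] at m2
        have he : Real.exp (1 / 2) ≤ 3 := by
          have h1 : Real.exp (1 / 2) ≤ Real.exp 1 := Real.exp_le_exp.2 (by norm_num)
          have h2 := Real.exp_one_lt_d9
          linarith
        have hcc : 0 ≤ (c : ℝ) ^ 2 := by positivity
        nlinarith

/-- general bound for the chaining functional -/
theorem lintegral_ebd_le {Wr : Ω → C(UI, ℝ)} (hm : ∀ x, AEMeasurable (fun ω => ext (Wr ω) x) P)
    [IsProbabilityMeasure P] (j : ℕ)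
    (h4 : ∀ k, k < 2 ^ j → ∫⁻ ω, ENNReal.ofReal ((dinc j k (Wr ω)) ^ 4) ∂P ≤
      ENNReal.ofReal (144 * ((1 / 2 : ℝ) ^ j) ^ 2)) :
    ∫⁻ ω, ENNReal.ofReal (ebd j (Wr ω)) ∂P ≤ ENNReal.ofReal (145 * (7 / 8 : ℝ) ^ j) := by
  set L : ℝ := (7 / 8 : ℝ) ^ j with hL
  have hL0 : 0 < L := by positivity
  have hdm : ∀ k, AEMeasurable (fun ω => (dinc j k (Wr ω)) ^ 4) P := fun k =>
    ((hm _).sub (hm _)).pow_const 4
  have e1 : ∀ ω, ENNReal.ofReal (ebd j (Wr ω)) = ENNReal.ofReal L + ENNReal.ofReal ((L⁻¹) ^ 3) *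
      ∑ k ∈ Finset.range (2 ^ j), ENNReal.ofReal ((dinc j k (Wr ω)) ^ 4) := by
    intro ω
    unfold ebd
    have hS : 0 ≤ ∑ k ∈ Finset.range (2 ^ j), (dinc j k (Wr ω)) ^ 4 :=
      Finset.sum_nonneg (fun k _ => by positivity)
    rw [ENNReal.ofReal_add hL0.le (by positivity), ENNReal.ofReal_mul (by positivity),
      ENNReal.ofReal_sum_of_nonneg (fun k _ => by positivity)]
  simp_rw [e1]
  rw [lintegral_add_left' aemeasurable_const, lintegral_const, measure_univ, mul_one,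
    lintegral_const_mul' _ _ ENNReal.ofReal_ne_top,
    lintegral_finsetSum' _ (fun k _ => (hdm k).ennreal_ofReal)]
  have h5 : ∑ k ∈ Finset.range (2 ^ j), ∫⁻ ω, ENNReal.ofReal ((dinc j k (Wr ω)) ^ 4) ∂P ≤
      ∑ k ∈ Finset.range (2 ^ j), ENNReal.ofReal (144 * ((1 / 2 : ℝ) ^ j) ^ 2) :=
    Finset.sum_le_sum (fun k hk => h4 k (Finset.mem_range.1 hk))
  rw [Finset.sum_const, Finset.card_range, nsmul_eq_mul] at h5
  have h6 : ((2 ^ j : ℕ) : ℝ≥0∞) * ENNReal.ofReal (144 * ((1 / 2 : ℝ) ^ j) ^ 2) =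
      ENNReal.ofReal (144 * (1 / 2 : ℝ) ^ j) := by
    rw [← ENNReal.ofReal_natCast, ← ENNReal.ofReal_mul (by positivity)]
    congr 1
    push_cast
    have : (2 : ℝ) ^ j * (1 / 2 : ℝ) ^ j = 1 := by rw [← mul_pow]; norm_num
    calc (2 : ℝ) ^ j * (144 * ((1 / 2 : ℝ) ^ j) ^ 2) =
        144 * (1 / 2 : ℝ) ^ j * ((2 : ℝ) ^ j * (1 / 2 : ℝ) ^ j) := by ring
      _ = _ := by rw [this]; ring
  rw [h6] at h5
  refine (add_le_add le_rfl (mul_le_mul_right h5 _)).trans ?_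
  rw [← ENNReal.ofReal_mul (by positivity), ← ENNReal.ofReal_add hL0.le (by positivity)]
  refine ENNReal.ofReal_le_ofReal ?_
  have h7 : (1 / 2 : ℝ) ^ j ≤ L ^ 4 := by
    rw [hL, ← pow_mul, mul_comm, pow_mul]
    exact pow_le_pow_left₀ (by norm_num) (by norm_num) j
  have h8 : (L⁻¹) ^ 3 * (144 * (1 / 2 : ℝ) ^ j) ≤ (L⁻¹) ^ 3 * (144 * L ^ 4) :=
    mul_le_mul_of_nonneg_left (by linarith) (by positivity)
  have h9 : (L⁻¹) ^ 3 * (144 * L ^ 4) = 144 * L := by field_simp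
  linarith

/-- uniform approximation bound in mean -/
theorem lintegral_edist_dya_le {Wr : Ω → C(UI, ℝ)}
    (hm : ∀ x, AEMeasurable (fun ω => ext (Wr ω) x) P) [IsProbabilityMeasure P]
    (h4 : ∀ j k, k < 2 ^ j → ∫⁻ ω, ENNReal.ofReal ((dinc j k (Wr ω)) ^ 4) ∂P ≤
      ENNReal.ofReal (144 * ((1 / 2 : ℝ) ^ j) ^ 2)) (n : ℕ) :
    ∫⁻ ω, edist (Wr ω) (dya n (Wr ω)) ∂P ≤ ENNReal.ofReal (1160 * (7 / 8 : ℝ) ^ n) := by
  have hdm : ∀ j k, AEMeasurable (fun ω => (dinc j k (Wr ω)) ^ 4) P := fun j k =>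
    ((hm _).sub (hm _)).pow_const 4
  have hem : ∀ j, AEMeasurable (fun ω => ENNReal.ofReal (ebd j (Wr ω))) P := by
    intro j
    refine AEMeasurable.ennreal_ofReal ?_
    unfold ebd
    exact (Finset.aemeasurable_fun_sum _ (fun k _ => hdm j k)).const_mul _ |>.const_add _
  calc ∫⁻ ω, edist (Wr ω) (dya n (Wr ω)) ∂P
      ≤ ∫⁻ ω, ∑' j, ENNReal.ofReal (ebd (n + j) (Wr ω)) ∂P :=
        lintegral_mono (fun ω => chain_edist (Wr ω) n)
    _ = ∑' j, ∫⁻ ω, ENNReal.ofReal (ebd (n + j) (Wr ω)) ∂P :=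
        lintegral_tsum (fun j => hem (n + j))
    _ ≤ ∑' j, ENNReal.ofReal (145 * (7 / 8 : ℝ) ^ (n + j)) :=
        ENNReal.tsum_le_tsum (fun j => lintegral_ebd_le hm (n + j) (h4 (n + j)))
    _ = ENNReal.ofReal (∑' j : ℕ, 145 * (7 / 8 : ℝ) ^ (n + j)) := by
        rw [ENNReal.ofReal_tsum_of_nonneg (fun j => by positivity)]
        have : Summable (fun j : ℕ => (145 * (7 / 8 : ℝ) ^ n) * (7 / 8 : ℝ) ^ j) :=
          (summable_geometric_of_lt_one (by norm_num) (by norm_num)).mul_left _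
        refine this.congr (fun j => ?_)
        rw [pow_add]; ring
    _ = ENNReal.ofReal (1160 * (7 / 8 : ℝ) ^ n) := by
        congr 1
        have : ∀ j : ℕ, 145 * (7 / 8 : ℝ) ^ (n + j) =
            (145 * (7 / 8 : ℝ) ^ n) * (7 / 8 : ℝ) ^ j := fun j => by rw [pow_add]; ring
        simp_rw [this]
        rw [tsum_mul_left, tsum_geometric_of_lt_one (by norm_num) (by norm_num)]
        ring

end Span52e894
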