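import Pool.Agent.Work.MP_52e894_pr.Moment
import Pool.Agent.Work.MP_52e894_pr.BM
import Pool.Agent.Work.MP_52e894_pr.Meas

/-!
# Increment bounds for the walk and for Brownian motion; measurability
-/

open MeasureTheory ProbabilityTheory Filter TopologicalSpace Set
open scoped NNReal ENNReal Topology

namespace Span52e894

theorem dyadic_mem {j k : ℕ} (hk : k ≤ 2 ^ j) : (k : ℝ) / 2 ^ j ∈ Set.Icc (0 : ℝ) 1 := by
  constructor
  · positivity
  · rw [div_le_one (by positivity)]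
    exact_mod_cast hk

theorem dyadic_mem_succ {j k : ℕ} (hk : k < 2 ^ j) :
    ((k : ℝ) + 1) / 2 ^ j ∈ Set.Icc (0 : ℝ) 1 := by
  have := dyadic_mem (j := j) (k := k + 1) hk
  push_cast at this
  exact this

variable {Ω : Type*} [MeasurableSpace Ω] {P : Measure Ω}

theorem subG_rademacher [IsProbabilityMeasure P] {X : Ω → ℝ} (hX : AEMeasurable X P)
    (h1 : P {ω | X ω = 1} = 1 / 2) (h2 : P {ω | X ω = -1} = 1 / 2) :
    HasSubgaussianMGF X 1 P := by
  have hb : ∀ᵐ ω ∂P, X ω ∈ Set.Icc (-1 : ℝ) 1 := by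
    filter_upwards [ae_rademacher hX h1 h2] with ω hω
    rcases hω with h | h <;> rw [h] <;> constructor <;> norm_num
  have h := hasSubgaussianMGF_of_mem_Icc_of_integral_eq_zero hX hb (integral_rademacher hX h1 h2)
  refine subG_mono h ?_
  rw [← NNReal.coe_le_coe]
  push_cast
  norm_num

/-- sums of squares of the increment coefficients -/
theorem sum_coef_sq_le (N : ℕ) {s t : ℝ} (hs : 0 ≤ s) (hst : s ≤ t) (ht : t ≤ 1) :
    ∑ i ∈ Finset.range N, ((√(N : ℝ))⁻¹ * ramp (N * t - i) - (√(N : ℝ))⁻¹ * ramp (N * s - i)) ^ 2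
      ≤ t - s := by
  rcases Nat.eq_zero_or_pos N with h0 | hpos
  · subst h0; simp; exact hst
  have hN : (0 : ℝ) < N := by exact_mod_cast hpos
  have hsq : ((√(N : ℝ))⁻¹) ^ 2 = (N : ℝ)⁻¹ := by
    rw [inv_pow, Real.sq_sqrt hN.le]
  have hterm : ∀ i ∈ Finset.range N,
      ((√(N : ℝ))⁻¹ * ramp (N * t - i) - (√(N : ℝ))⁻¹ * ramp (N * s - i)) ^ 2 ≤
      (N : ℝ)⁻¹ * (ramp (N * t - i) - ramp (N * s - i)) := by
    intro i _
    have hd0 : 0 ≤ ramp (N * t - i) - ramp (N * s - i) := by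
      have := ramp_mono (show N * s - (i : ℝ) ≤ N * t - i by nlinarith)
      linarith
    have hd1 : ramp (N * t - i) - ramp (N * s - i) ≤ 1 := by
      have := ramp_le_one (N * t - i)
      have := ramp_nonneg (N * s - i)
      linarith
    calc ((√(N : ℝ))⁻¹ * ramp (N * t - i) - (√(N : ℝ))⁻¹ * ramp (N * s - i)) ^ 2
        = (N : ℝ)⁻¹ * ((ramp (N * t - i) - ramp (N * s - i)) *
          (ramp (N * t - i) - ramp (N * s - i))) := by rw [← hsq]; ring
      _ ≤ (N : ℝ)⁻¹ * ((ramp (N * t - i) - ramp (N * s - i)) * 1) :=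
          mul_le_mul_of_nonneg_left (mul_le_mul_of_nonneg_left hd1 hd0) (by positivity)
      _ = _ := by ring
  refine (Finset.sum_le_sum hterm).trans ?_
  rw [← Finset.mul_sum, Finset.sum_sub_distrib, sum_ramp, sum_ramp]
  have e1 : max 0 ((N : ℝ) * t) - max 0 ((N : ℝ) * t - N) = N * t := by
    rw [max_eq_right (by nlinarith), max_eq_left (by nlinarith)]; ring
  have e2 : max 0 ((N : ℝ) * s) - max 0 ((N : ℝ) * s - N) = N * s := by
    rw [max_eq_right (by nlinarith), max_eq_left (by nlinarith)]; ring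
  rw [e1, e2]
  apply le_of_eq
  field_simp

theorem subG_wpath [IsProbabilityMeasure P] {X : ℕ → Ω → ℝ}
    (hX : ∀ i, AEMeasurable (X i) P) (hind : iIndepFun X P)
    (h1 : ∀ i, P {ω | X i ω = 1} = 1 / 2) (h2 : ∀ i, P {ω | X i ω = -1} = 1 / 2)
    (N : ℕ) {s t : UI} (hst : (s : ℝ) ≤ t) {c : ℝ≥0} (hc : (t : ℝ) - s ≤ c) :
    HasSubgaussianMGF (fun ω => wpath X N ω t - wpath X N ω s) c P := by
  set a : ℕ → ℝ := fun i => (√(N : ℝ))⁻¹ * ramp (N * t - i) - (√(N : ℝ))⁻¹ * ramp (N * s - i)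
    with ha
  have hind' : iIndepFun (fun i ω => a i * X i ω) P :=
    hind.comp (fun i x => a i * x) (fun i => by fun_prop)
  have hsum := HasSubgaussianMGF.sum_of_iIndepFun hind' (s := Finset.range N)
    (fun i _ => (subG_rademacher (hX i) (h1 i) (h2 i)).const_mul (a i))
  have e : (fun ω => ∑ i ∈ Finset.range N, a i * X i ω) =
      (fun ω => wpath X N ω t - wpath X N ω s) := by
    funext ω
    rw [wpath_apply, wpath_apply, ← Finset.sum_sub_distrib]
    refine Finset.sum_congr rfl (fun i _ => ?_)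
    rw [ha]; ring
  rw [e] at hsum
  refine subG_mono hsum ?_
  rw [← NNReal.coe_le_coe]
  push_cast
  have hle := sum_coef_sq_le N s.2.1 hst t.2.2
  refine le_trans (le_of_eq ?_) (hle.trans hc)
  refine Finset.sum_congr rfl (fun i _ => ?_)
  exact mul_one (a i ^ 2)

theorem ext_wpath_aemeasurable {X : ℕ → Ω → ℝ} (hX : ∀ i, AEMeasurable (X i) P) (N : ℕ) (x : ℝ) :
    AEMeasurable (fun ω => ext (wpath X N ω) x) P := by
  unfold ext Set.IccExtend
  exact aemeasurable_wpath_apply hX N _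

theorem moment_wpath [IsProbabilityMeasure P] {X : ℕ → Ω → ℝ}
    (hX : ∀ i, AEMeasurable (X i) P) (hind : iIndepFun X P)
    (h1 : ∀ i, P {ω | X i ω = 1} = 1 / 2) (h2 : ∀ i, P {ω | X i ω = -1} = 1 / 2)
    (N j k : ℕ) (hk : k < 2 ^ j) :
    ∫⁻ ω, ENNReal.ofReal ((dinc j k (wpath X N ω)) ^ 4) ∂P ≤
      ENNReal.ofReal (144 * ((1 / 2 : ℝ) ^ j) ^ 2) := by
  have e : ∀ ω, dinc j k (wpath X N ω) = wpath X N ω ⟨_, dyadic_mem_succ hk⟩ -
      wpath X N ω ⟨_, dyadic_mem hk.le⟩ := by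
    intro ω
    unfold dinc
    rw [ext_of_mem _ (dyadic_mem_succ hk), ext_of_mem _ (dyadic_mem hk.le)]
  simp_rw [e]
  have hsub := subG_wpath hX hind h1 h2 N (s := ⟨_, dyadic_mem hk.le⟩)
    (t := ⟨_, dyadic_mem_succ hk⟩) (c := (1 / 2 : ℝ≥0) ^ j)
    (by simp only; exact div_le_div_of_nonneg_right (by linarith) (by positivity))
    (by
      simp only
      push_cast
      apply le_of_eq
      rw [← sub_div, one_div_pow]
      ring)
  have := lintegral_pow_four_le (by positivity) hsub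
  push_cast at this
  exact this

/-! ### Brownian motion -/

variable {B : ℝ≥0 → Ω → ℝ}

theorem subG_bm (hB : IsPreBrownianReal B P) {s t : ℝ≥0} (hst : s ≤ t) {c : ℝ≥0}
    (hc : t - s ≤ c) : HasSubgaussianMGF (fun ω => B t ω - B s ω) c P := by
  have hlaw : P.map (fun ω => B t ω - B s ω) = gaussianReal 0 (nndist t.1 s.1) :=
    (hB.hasLaw_sub t s).map_eq
  have hv : nndist t.1 s.1 ≤ c := by
    rw [← NNReal.coe_le_coe, coe_nndist, Real.dist_eq]
    have h1 : (s : ℝ) ≤ t := by exact_mod_cast hst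
    have h2 : ((t - s : ℝ≥0) : ℝ) ≤ c := by exact_mod_cast hc
    rw [NNReal.coe_sub hst] at h2
    have h3 : |(t : ℝ) - s| ≤ c := by rw [abs_of_nonneg (by linarith)]; exact h2
    exact h3
  have hG : HasSubgaussianMGF (fun ω => B t ω - B s ω) (nndist t.1 s.1) P := by
    refine ⟨fun u => ?_, fun u => ?_⟩
    · have h1 : Integrable (fun x => Real.exp (u * x)) (P.map (fun ω => B t ω - B s ω)) := by
        rw [hlaw]; exact integrable_exp_mul_gaussianReal u
      exact h1.comp_aemeasurable ((hB.aemeasurable t).sub (hB.aemeasurable s))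
    · rw [mgf_gaussianReal hlaw u, zero_mul, zero_add]
  exact subG_mono hG hv

theorem ext_pathC_ae (hB : IsBrownianReal B P) :
    ∀ᵐ ω ∂P, ∀ x ∈ Set.Icc (0 : ℝ) 1, ext (pathC (fun t => B t ω)) x = B (Real.toNNReal x) ω := by
  filter_upwards [hB.cont] with ω hω x hx
  rw [ext_of_mem _ hx, pathC_apply hω]
  rfl

theorem ext_pathC_aemeasurable (hB : IsBrownianReal B P) (x : ℝ) :
    AEMeasurable (fun ω => ext (pathC (fun t => B t ω)) x) P := by
  have h1 : AEMeasurable (B (Real.toNNReal (Set.projIcc (0 : ℝ) 1 (zero_le_one' ℝ) x))) P :=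
    hB.aemeasurable _
  refine h1.congr ?_
  filter_upwards [ext_pathC_ae hB] with ω hω
  have h2 := hω (Set.projIcc (0 : ℝ) 1 (zero_le_one' ℝ) x)
    (Set.projIcc (0 : ℝ) 1 (zero_le_one' ℝ) x).2
  rw [← h2, ext_coe]
  rfl

theorem moment_bm (hB : IsBrownianReal B P) (j k : ℕ) (hk : k < 2 ^ j) :
    ∫⁻ ω, ENNReal.ofReal ((dinc j k (pathC (fun t => B t ω))) ^ 4) ∂P ≤
      ENNReal.ofReal (144 * ((1 / 2 : ℝ) ^ j) ^ 2) := by
  have hsub := subG_bm hB.toIsPreBrownianReal (s := Real.toNNReal ((k : ℝ) / 2 ^ j))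
    (t := Real.toNNReal (((k : ℝ) + 1) / 2 ^ j)) (c := (1 / 2 : ℝ≥0) ^ j)
    (Real.toNNReal_le_toNNReal (div_le_div_of_nonneg_right (by linarith) (by positivity)))
    (by
      rw [tsub_le_iff_right, ← NNReal.coe_le_coe, NNReal.coe_add,
        Real.coe_toNNReal _ (by positivity), Real.coe_toNNReal _ (by positivity)]
      push_cast
      apply le_of_eq
      rw [one_div_pow]
      ring)
  have h := lintegral_pow_four_le (by positivity) hsub
  push_cast at h
  refine le_trans (le_of_eq ?_) h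
  refine lintegral_congr_ae ?_
  filter_upwards [ext_pathC_ae hB] with ω hω
  unfold dinc
  rw [hω _ (dyadic_mem_succ hk), hω _ (dyadic_mem hk.le)]

/-! ### Measurability of the path-valued maps -/

theorem aemeasurable_polyLine {x : ℕ → Ω → ℝ} (hx : ∀ k, AEMeasurable (x k) P) (M : ℕ) :
    AEMeasurable (fun ω => polyLine M (fun k => x k ω)) P :=
  (continuous_polyLine M).measurable.comp_aemeasurable (aemeasurable_pi_lambda _ hx)

theorem aemeasurable_wpath {X : ℕ → Ω → ℝ} (hX : ∀ i, AEMeasurable (X i) P) (N : ℕ) :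
    AEMeasurable (fun ω => wpath X N ω) P :=
  aemeasurable_polyLine (fun _ => (Finset.aemeasurable_fun_sum _ (fun i _ => hX i)).const_mul _) N

theorem aemeasurable_dya {Wr : Ω → C(UI, ℝ)} (hm : ∀ x, AEMeasurable (fun ω => ext (Wr ω) x) P)
    (n : ℕ) : AEMeasurable (fun ω => dya n (Wr ω)) P :=
  aemeasurable_polyLine (fun _ => hm _) _

theorem dya_tendsto (hB : IsBrownianReal B P) :
    ∀ᵐ ω ∂P, Tendsto (fun n => dya n (pathC (fun t => B t ω))) atTop
      (𝓝 (pathC (fun t => B t ω))) := by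
  have : IsProbabilityMeasure P := hB.isGaussianProcess.isProbabilityMeasure
  have hm := ext_pathC_aemeasurable hB
  have hdm : ∀ j k, AEMeasurable (fun ω => (dinc j k (pathC (fun t => B t ω))) ^ 4) P :=
    fun j k => ((hm _).sub (hm _)).pow_const 4
  have hem : ∀ j, AEMeasurable (fun ω => ENNReal.ofReal (ebd j (pathC (fun t => B t ω)))) P := by
    intro j
    refine AEMeasurable.ennreal_ofReal ?_
    unfold ebd
    exact (Finset.aemeasurable_fun_sum _ (fun k _ => hdm j k)).const_mul _ |>.const_add _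
  have hfin : ∫⁻ ω, ∑' j, ENNReal.ofReal (ebd j (pathC (fun t => B t ω))) ∂P ≠ ⊤ := by
    rw [lintegral_tsum hem]
    have hle : ∑' j, ∫⁻ ω, ENNReal.ofReal (ebd j (pathC (fun t => B t ω))) ∂P ≤
        ∑' j, ENNReal.ofReal (145 * (7 / 8 : ℝ) ^ j) :=
      ENNReal.tsum_le_tsum (fun j => lintegral_ebd_le hm j (fun k hk => moment_bm hB j k hk))
    refine ne_top_of_le_ne_top ?_ hle
    rw [← ENNReal.ofReal_tsum_of_nonneg (fun j => by positivity)
      ((summable_geometric_of_lt_one (by norm_num) (by norm_num)).mul_left _)]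
    exact ENNReal.ofReal_ne_top
  have hae := ae_lt_top' (AEMeasurable.tsum hem) hfin
  filter_upwards [hae] with ω hω
  rw [tendsto_iff_edist_tendsto_0]
  have h0 := ENNReal.tendsto_sum_nat_add
    (fun j => ENNReal.ofReal (ebd j (pathC (fun t => B t ω)))) hω.ne
  refine tendsto_of_tendsto_of_tendsto_of_le_of_le tendsto_const_nhds h0 (fun n => zero_le)
    (fun n => ?_)
  rw [edist_comm]
  refine (chain_edist _ n).trans (le_of_eq ?_)
  refine tsum_congr (fun j => ?_)
  rw [add_comm]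

theorem aemeasurable_pathC (hB : IsBrownianReal B P) :
    AEMeasurable (fun ω => pathC (fun t => B t ω)) P :=
  aemeasurable_of_tendsto_metrizable_ae' (fun n => aemeasurable_dya (ext_pathC_aemeasurable hB) n)
    (dya_tendsto hB)

end Span52e894
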